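import Mathlib
import Pool.Agent.H932R3.Empty

set_option autoImplicit false

/-!
# Families of fat points given by lists of multiplicities
-/

namespace Pool.Agent.H350R3.GR

open Polynomial Pool.Agent.H932R2 Pool.Agent.H932R3

variable {K : Type*} [Field K]

/-- The polynomials vanishing to order `m` at the point `(a, b)`. -/
noncomputable def ptI (a b : K) (m : ℕ) : Ideal K[X][X] := cIdeal (fun _ : Fin 1 => a) (C b) m

/-- Intersections of the ideals of points with the given multiplicities. -/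
inductive PtI : List ℕ → Ideal K[X][X] → Prop
  | nil : PtI [] ⊤
  | cons (m : ℕ) (L : List ℕ) (J : Ideal K[X][X]) (a b : K) : PtI L J →
      PtI (m :: L) (ptI a b m ⊓ J)

theorem ptI_subY (a b : K) (m ρ : ℕ) (t : K) :
    ptI a (a ^ ρ + t * b) m ≤ (ptI a b m).comap (subY ρ t) := by
  refine le_trans ?_ (cIdeal_subY (fun _ : Fin 1 => a) (C b) m ρ t)
  have h := point_le a (X ^ ρ + C t * C b : K[X]) m
  have e : (X ^ ρ + C t * C b : K[X]).eval a = a ^ ρ + t * b := by simp
  rw [e] at h
  exact h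

theorem ptI_subX (a b : K) (m : ℕ) (t : K) (ht : t ≠ 0) :
    ptI (1 + t * a) b m ≤ (ptI a b m).comap (subX t) := by
  have h := cIdeal_subX (fun _ : Fin 1 => a) (C b) m t ht
  rw [C_comp] at h
  exact h

theorem PtI.stable (L : List ℕ) : Stable {J : Ideal K[X][X] | PtI L J} := by
  constructor
  · intro J hJ ρ t _
    change PtI L J at hJ
    induction hJ with
    | nil => exact ⟨⊤, PtI.nil, le_top⟩
    | cons m L J a b _ ih =>
      obtain ⟨J', h1, h2⟩ := ih
      refine ⟨ptI a (a ^ ρ + t * b) m ⊓ J', PtI.cons m L J' _ _ h1, ?_⟩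
      rw [Ideal.comap_inf]
      exact inf_le_inf (ptI_subY a b m ρ t) h2
  · intro J hJ t ht
    change PtI L J at hJ
    induction hJ with
    | nil => exact ⟨⊤, PtI.nil, le_top⟩
    | cons m L J a b _ ih =>
      obtain ⟨J', h1, h2⟩ := ih
      refine ⟨ptI (1 + t * a) b m ⊓ J', PtI.cons m L J' _ _ h1, ?_⟩
      rw [Ideal.comap_inf]
      exact inf_le_inf (ptI_subX a b m t ht) h2

/-- The substitution `x ↦ u x`, `y ↦ v y`. -/
noncomputable def scl (u v : K) : K[X][X] →ₐ[K] K[X][X] :=
  ((Polynomial.aeval (R := K[X]) (C (C v) * X : K[X][X])).restrictScalars K).comp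
    (Polynomial.mapAlgHom (Polynomial.aeval (C u * X : K[X])))

theorem scl_C (u v : K) (a : K[X]) : scl u v (C a) = C (a.comp (C u * X)) := by
  simp [scl, Polynomial.aeval_def, Polynomial.comp, Polynomial.algebraMap_eq]

theorem scl_X (u v : K) : scl u v (X : K[X][X]) = C (C v) * X := by
  simp [scl]

theorem scl_mon (u v : K) (p : ℕ × ℕ) : scl u v (mon K p) = (u ^ p.1 * v ^ p.2) • mon K p := by
  rw [mon, map_mul, scl_C, map_pow, scl_X, Algebra.smul_def]
  simp only [pow_comp, X_comp, mul_pow, map_mul, map_pow, Polynomial.algebraMap_apply,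
    Algebra.algebraMap_self, RingHom.id_apply]
  ring

theorem ptI_scl (a b : K) (m : ℕ) (u v : K) :
    ptI (u * a) (v * b) m ≤ (ptI a b m).comap (scl u v) := by
  unfold ptI cIdeal
  rw [← Ideal.map_le_iff_le_comap, Ideal.map_pow]
  refine Ideal.pow_right_mono ?_ m
  rw [Ideal.map_span, Ideal.span_le]
  rintro _ ⟨f, hf, rfl⟩
  rcases hf with rfl | hf
  · have : scl u v (X - C (C (v * b)) : K[X][X]) = C (C v) * (X - C (C b)) := by
      rw [map_sub, scl_C, scl_X, C_comp, C_mul, C_mul]
      ring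
    change scl u v (X - C (C (v * b)) : K[X][X]) ∈ _
    rw [this]
    exact Ideal.mul_mem_left _ _ (Ideal.subset_span (Or.inl rfl))
  · rw [Set.mem_singleton_iff] at hf
    subst hf
    have : scl u v (C (rootPoly (fun _ : Fin 1 => u * a)) : K[X][X]) =
        C (C u) * C (rootPoly (fun _ : Fin 1 => a)) := by
      rw [scl_C, rootPoly_const, rootPoly_const, pow_one, pow_one, sub_comp, X_comp, C_comp,
        ← C_mul]
      congr 1
      rw [mul_sub, ← C_mul]
    change scl u v (C (rootPoly (fun _ : Fin 1 => u * a)) : K[X][X]) ∈ _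
    rw [this]
    exact Ideal.mul_mem_left _ _ (Ideal.subset_span (Or.inr rfl))

theorem PtI.scl {L : List ℕ} {J : Ideal K[X][X]} (h : PtI L J) (u v : K) :
    ∃ J', PtI L J' ∧ J' ≤ J.comap (GR.scl u v) := by
  induction h with
  | nil => exact ⟨⊤, PtI.nil, le_top⟩
  | cons m L J a b _ ih =>
    obtain ⟨J', h1, h2⟩ := ih
    refine ⟨ptI (u * a) (v * b) m ⊓ J', PtI.cons m L J' _ _ h1, ?_⟩
    rw [Ideal.comap_inf]
    exact inf_le_inf (ptI_scl a b m u v) h2

/-- The monomials in `M` are linearly independent modulo `J`. -/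
def Indep (J : Ideal K[X][X]) (M : Finset (ℕ × ℕ)) : Prop :=
  ∀ c : ℕ × ℕ → K, (∑ u ∈ M, c u • mon K u) ∈ J → ∀ u ∈ M, c u = 0

theorem Indep.rk {J : Ideal K[X][X]} {M : Finset (ℕ × ℕ)} (h : Indep J M) :
    RkI J (↑M : Set (ℕ × ℕ)) M.card := by
  refine ⟨fun i => mon K (enumM M i),
    fun i => Submodule.subset_span ⟨_, enumM_mem M i, rfl⟩, fun c hc i => ?_⟩
  have hinj : Function.Injective (enumM M) := fun a b hab => enumM_inj M hab
  have he : ∀ j, Function.extend (enumM M) c 0 (enumM M j) = c j := fun j =>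
    hinj.extend_apply _ _ _
  rw [← he i]
  refine h (Function.extend (enumM M) c 0) ?_ _ (enumM_mem M i)
  rw [← sum_enumM M (fun u => Function.extend (enumM M) c 0 u • mon K u)]
  simp only [he]
  exact hc

theorem Indep.mono {J : Ideal K[X][X]} {M M' : Finset (ℕ × ℕ)} (h : Indep J M) (hM : M' ⊆ M) :
    Indep J M' := by
  classical
  intro c hc u hu
  have h1 := h (fun v => if v ∈ M' then c v else 0) (by
    have : ∑ v ∈ M, (if v ∈ M' then c v else 0) • mon K v = ∑ v ∈ M', c v • mon K v := by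
      symm
      calc ∑ v ∈ M', c v • mon K v = ∑ v ∈ M', (if v ∈ M' then c v else 0) • mon K v :=
            Finset.sum_congr rfl fun v hv => by rw [if_pos hv]
        _ = _ := Finset.sum_subset hM fun v _ hv => by rw [if_neg hv, zero_smul]
    rw [this]
    exact hc) u (hM hu)
  simpa [hu] using h1

theorem Indep.anti {J J' : Ideal K[X][X]} {M : Finset (ℕ × ℕ)} (h : Indep J M) (hJ : J' ≤ J) :
    Indep J' M := fun c hc => h c (hJ hc)

end Pool.Agent.H350R3.GR
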