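import Mathlib
import Pool.Agent.H350R3.GR.Pt

set_option autoImplicit false

/-!
# Cutting a set of monomials by a line
-/

namespace Pool.Agent.H350R3.GR

open Polynomial Pool.Agent.H932R2 Pool.Agent.H932R3

variable {K : Type*} [Field K]

theorem sum_scl (J : Ideal K[X][X]) (M : Finset (ℕ × ℕ)) (c e : ℕ × ℕ → K)
    (h : ∑ u ∈ M, (c u * e u) • mon K u ∈ J) :
    ∑ u ∈ M, c u • (e u • Ideal.Quotient.mkₐ K J (mon K u)) = 0 := by
  have h1 : ∑ u ∈ M, c u • (e u • Ideal.Quotient.mkₐ K J (mon K u)) =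
      Ideal.Quotient.mkₐ K J (∑ u ∈ M, (c u * e u) • mon K u) := by
    rw [map_sum]
    refine Finset.sum_congr rfl fun u _ => ?_
    rw [map_smul, smul_smul]
  rw [h1, Ideal.Quotient.mkₐ_eq_mk, Ideal.Quotient.eq_zero_iff_mem]
  exact h

theorem mem_of_sum (J : Ideal K[X][X]) (M : Finset (ℕ × ℕ)) (c : ℕ × ℕ → K)
    (h : ∑ u ∈ M, c u • Ideal.Quotient.mkₐ K J (mon K u) = 0) : ∑ u ∈ M, c u • mon K u ∈ J := by
  rw [← Ideal.Quotient.eq_zero_iff_mem, ← Ideal.Quotient.mkₐ_eq_mk K J, map_sum, ← h]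
  refine Finset.sum_congr rfl fun u _ => ?_
  rw [map_smul]

/-- **The cut lemma.** -/
theorem cut [Infinite K] {J1 J2 : Ideal K[X][X]} {M1 M2 : Finset (ℕ × ℕ)} (p q c0 : ℤ)
    (h1 : ∀ u ∈ M1, p * u.1 + q * u.2 < c0) (h2 : ∀ u ∈ M2, c0 ≤ p * u.1 + q * u.2)
    (hI1 : Indep J1 M1) (hI2 : Indep J2 M2) :
    ∃ s : K, s ≠ 0 ∧ Indep (J1 ⊓ J2.comap (scl (s ^ (-p)) (s ^ (-q)))) (M1 ∪ M2) := by
  classical
  obtain ⟨M, hM⟩ : ∃ M, M = M1 ∪ M2 := ⟨_, rfl⟩
  have hdis : Disjoint M1 M2 := by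
    rw [Finset.disjoint_left]
    intro u hu1 hu2
    have := h1 u hu1
    have := h2 u hu2
    omega
  have hmem : ∀ u ∈ M, u ∈ M1 ∨ u ∈ M2 := fun u hu => by
    rw [hM, Finset.mem_union] at hu
    exact hu
  let N' : ℕ × ℕ → ℕ := fun u => (c0 - 1 - (p * u.1 + q * u.2)).toNat
  let N : ℕ × ℕ → ℕ := fun u => ((p * u.1 + q * u.2) - c0 + 1).toNat
  have hN' : ∀ u ∈ M1, (N' u : ℤ) = c0 - 1 - (p * u.1 + q * u.2) := fun u hu =>
    Int.toNat_of_nonneg (by have := h1 u hu; omega)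
  have hN : ∀ u ∈ M2, (N u : ℤ) = (p * u.1 + q * u.2) - c0 + 1 := fun u hu =>
    Int.toNat_of_nonneg (by have := h2 u hu; omega)
  have hN0 : ∀ u ∈ M2, N u ≠ 0 := fun u hu h0 => by
    have h3 := hN u hu
    have h4 := h2 u hu
    rw [h0] at h3
    push_cast at h3
    omega
  let m1 : ℕ × ℕ → K[X][X] ⧸ J1 := fun u => Ideal.Quotient.mkₐ K J1 (mon K u)
  let m2 : ℕ × ℕ → K[X][X] ⧸ J2 := fun u => Ideal.Quotient.mkₐ K J2 (mon K u)
  let vv : ℕ × ℕ → ℕ → (K[X][X] ⧸ J1) × (K[X][X] ⧸ J2) := fun u k =>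
    if u ∈ M1 then (if k = 0 then m1 u else 0, if k = N' u then m2 u else 0)
    else (if k = N u then m1 u else 0, if k = 0 then m2 u else 0)
  obtain ⟨B, hB1, hB2⟩ : ∃ B, (∀ u ∈ M1, N' u ≤ B) ∧ (∀ u ∈ M2, N u ≤ B) :=
    ⟨M1.sup N' + M2.sup N, fun u hu => (Finset.le_sup (f := N') hu).trans (Nat.le_add_right _ _),
      fun u hu => (Finset.le_sup (f := N) hu).trans (Nat.le_add_left _ _)⟩
  have hfst : ∀ u ∈ M1, vv u 0 = (m1 u, if 0 = N' u then m2 u else 0) := by
    intro u hu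
    simp only [vv, if_pos hu, if_true]
  have hsnd : ∀ u ∈ M2, vv u 0 = (0, m2 u) := by
    intro u hu
    have hu1 : u ∉ M1 := fun h => (Finset.disjoint_left.1 hdis) h hu
    simp only [vv, if_neg hu1, if_true]
    rw [if_neg (fun h => hN0 u hu h.symm)]
  have hsum : ∀ (c : ℕ × ℕ → K) (F : ℕ × ℕ → (K[X][X] ⧸ J1) × (K[X][X] ⧸ J2)),
      ∑ u ∈ M, c u • F u = ∑ u ∈ M1, c u • F u + ∑ u ∈ M2, c u • F u := by
    intro c F
    rw [hM, Finset.sum_union hdis]
  have h0 : LinearIndependent K (fun j => vv (enumM M j) 0) := by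
    rw [Fintype.linearIndependent_iff]
    intro c hc i
    have hinj : Function.Injective (enumM M) := fun a b hab => enumM_inj M hab
    obtain ⟨e, he⟩ : ∃ e : ℕ × ℕ → K, ∀ j, e (enumM M j) = c j :=
      ⟨Function.extend (enumM M) c 0, fun j => hinj.extend_apply _ _ _⟩
    have hc' : ∑ u ∈ M, e u • vv u 0 = 0 := by
      rw [← hc, ← sum_enumM M (fun u => e u • vv u 0)]
      exact Finset.sum_congr rfl fun j _ => by rw [he]
    rw [hsum, Finset.sum_congr rfl (fun u hu => by rw [hfst u hu]) (s₁ := M1),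
      Finset.sum_congr rfl (fun u hu => by rw [hsnd u hu]) (s₁ := M2)] at hc'
    have hA : ∀ u ∈ M1, e u = 0 := by
      refine hI1 e (mem_of_sum J1 M1 e ?_)
      have := congrArg Prod.fst hc'
      rw [Prod.fst_add, Prod.fst_sum, Prod.fst_sum] at this
      simp only [Prod.smul_fst, smul_zero, Finset.sum_const_zero, add_zero, Prod.fst_zero] at this
      exact this
    have hB : ∀ u ∈ M2, e u = 0 := by
      refine hI2 e (mem_of_sum J2 M2 e ?_)
      have := congrArg Prod.snd hc'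
      rw [Prod.snd_add, Prod.snd_sum, Prod.snd_sum,
        Finset.sum_eq_zero (s := M1) (fun u hu => by rw [hA u hu, zero_smul]; rfl),
        zero_add] at this
      simp only [Prod.smul_snd, Prod.snd_zero] at this
      exact this
    rw [← he i]
    rcases hmem _ (enumM_mem M i) with hi | hi
    · exact hA _ hi
    · exact hB _ hi
  obtain ⟨s, hs, hli⟩ := exists_ne_zero_li B (fun j => vv (enumM M j)) h0
  refine ⟨s, hs, ?_⟩
  rw [← hM]
  have hv1 : ∀ u ∈ M1, ∑ k ∈ Finset.range (B + 1), s ^ k • vv u k = (m1 u, s ^ N' u • m2 u) := by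
    intro u hu
    have hlt : N' u ∈ Finset.range (B + 1) := Finset.mem_range.2 (Nat.lt_succ_of_le (hB1 u hu))
    have h0m : 0 ∈ Finset.range (B + 1) := Finset.mem_range.2 (Nat.succ_pos _)
    refine Prod.ext ?_ ?_
    · rw [Prod.fst_sum, Finset.sum_eq_single_of_mem 0 h0m]
      · simp only [vv, if_pos hu, if_true, pow_zero, one_smul]
      · intro k _ hk
        simp only [vv, if_pos hu, if_neg hk, Prod.smul_fst, smul_zero]
    · rw [Prod.snd_sum, Finset.sum_eq_single_of_mem (N' u) hlt]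
      · simp only [vv, if_pos hu, if_true, Prod.smul_snd]
      · intro k _ hk
        simp only [vv, if_pos hu, if_neg hk, Prod.smul_snd, smul_zero]
  have hv2 : ∀ u ∈ M2, ∑ k ∈ Finset.range (B + 1), s ^ k • vv u k = (s ^ N u • m1 u, m2 u) := by
    intro u hu
    have hu1 : u ∉ M1 := fun h => (Finset.disjoint_left.1 hdis) h hu
    have hlt : N u ∈ Finset.range (B + 1) := Finset.mem_range.2 (Nat.lt_succ_of_le (hB2 u hu))
    have h0m : 0 ∈ Finset.range (B + 1) := Finset.mem_range.2 (Nat.succ_pos _)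
    refine Prod.ext ?_ ?_
    · rw [Prod.fst_sum, Finset.sum_eq_single_of_mem (N u) hlt]
      · simp only [vv, if_neg hu1, if_true, Prod.smul_fst]
      · intro k _ hk
        simp only [vv, if_neg hu1, if_neg hk, Prod.smul_fst, smul_zero]
    · rw [Prod.snd_sum, Finset.sum_eq_single_of_mem 0 h0m]
      · simp only [vv, if_neg hu1, if_true, pow_zero, one_smul]
      · intro k _ hk
        simp only [vv, if_neg hu1, if_neg hk, Prod.smul_snd, smul_zero]
  intro c hc u0 hu0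
  rw [Ideal.mem_inf] at hc
  obtain ⟨hc1, hc2⟩ := hc
  -- the rescaled coefficients
  let b : ℕ × ℕ → K := fun u => if u ∈ M1 then c u else c u * (s ^ N u)⁻¹
  have hb1 : ∀ u ∈ M1, b u = c u := fun u hu => by simp only [b, if_pos hu]
  have hb2 : ∀ u ∈ M2, b u = c u * (s ^ N u)⁻¹ := fun u hu => by
    have hu1 : u ∉ M1 := fun h => (Finset.disjoint_left.1 hdis) h hu
    simp only [b, if_neg hu1]
  have hbsum : ∑ u ∈ M, b u • (∑ k ∈ Finset.range (B + 1), s ^ k • vv u k) = 0 := by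
    rw [hsum, Finset.sum_congr rfl (fun u hu => by rw [hv1 u hu, hb1 u hu]) (s₁ := M1),
      Finset.sum_congr rfl (fun u hu => by rw [hv2 u hu, hb2 u hu]) (s₁ := M2)]
    refine Prod.ext ?_ ?_
    · rw [Prod.fst_add, Prod.fst_sum, Prod.fst_sum]
      simp only [Prod.smul_fst, Prod.fst_zero]
      have e1 : ∀ u ∈ M2, (c u * (s ^ N u)⁻¹) • (s ^ N u • m1 u) = c u • m1 u := by
        intro u _
        rw [smul_smul, mul_assoc, inv_mul_cancel₀ (pow_ne_zero _ hs), mul_one]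
      rw [Finset.sum_congr rfl e1, ← Finset.sum_union hdis, ← hM]
      have h := (Ideal.Quotient.eq_zero_iff_mem).2 hc1
      rw [← Ideal.Quotient.mkₐ_eq_mk K J1, map_sum] at h
      rw [← h]
      exact Finset.sum_congr rfl fun u _ => (map_smul _ _ _).symm
    · rw [Prod.snd_add, Prod.snd_sum, Prod.snd_sum]
      simp only [Prod.smul_snd, Prod.snd_zero]
      rw [Ideal.mem_comap, map_sum] at hc2
      have e2 : ∑ u ∈ M, scl (s ^ (-p)) (s ^ (-q)) (c u • mon K u) =
          ∑ u ∈ M, (c u * (((s ^ (-p)) ^ u.1 * (s ^ (-q)) ^ u.2))) • mon K u := by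
        refine Finset.sum_congr rfl fun u _ => ?_
        rw [map_smul, scl_mon, smul_smul]
      rw [e2] at hc2
      have h5 := sum_scl J2 M c (fun u => ((s ^ (-p)) ^ u.1 * (s ^ (-q)) ^ u.2)) hc2
      have hz : ∀ u : ℕ × ℕ, (s ^ (-p)) ^ u.1 * (s ^ (-q)) ^ u.2 =
          s ^ (-(p * u.1 + q * u.2)) := by
        intro u
        rw [← zpow_natCast, ← zpow_natCast, ← zpow_mul, ← zpow_mul, ← zpow_add₀ hs]
        congr 1
        ring
      have h6 := congrArg (fun z => s ^ (c0 - 1) • z) h5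
      simp only [smul_zero] at h6
      rw [Finset.smul_sum, hM, Finset.sum_union hdis] at h6
      rw [← h6]
      congr 1
      · refine Finset.sum_congr rfl fun u hu => ?_
        show c u • (s ^ N' u • m2 u) = s ^ (c0 - 1) • (c u • (_ • m2 u))
        rw [hz u, smul_smul, smul_smul, smul_smul]
        congr 1
        have e3 : s ^ (c0 - 1) * c u * s ^ (-(p * (u.1 : ℤ) + q * u.2)) =
            c u * (s ^ (c0 - 1) * s ^ (-(p * (u.1 : ℤ) + q * u.2))) := by ring
        rw [e3, ← zpow_add₀ hs, ← zpow_natCast, hN' u hu]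
        congr 2
      · refine Finset.sum_congr rfl fun u hu => ?_
        show (c u * (s ^ N u)⁻¹) • m2 u = s ^ (c0 - 1) • (c u • (_ • m2 u))
        rw [hz u, smul_smul, smul_smul]
        congr 1
        have e3 : s ^ (c0 - 1) * c u * s ^ (-(p * (u.1 : ℤ) + q * u.2)) =
            c u * (s ^ (c0 - 1) * s ^ (-(p * (u.1 : ℤ) + q * u.2))) := by ring
        rw [e3, ← zpow_add₀ hs, ← zpow_natCast, hN u hu, ← zpow_neg]
        congr 2
        ring
  have hb0 : ∀ u ∈ M, b u = 0 := by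
    intro u hu
    obtain ⟨i, hi⟩ := enumM_surj M hu
    rw [← hi]
    refine Fintype.linearIndependent_iff.1 hli (fun j => b (enumM M j)) ?_ i
    rw [sum_enumM M (fun u => b u • ∑ k ∈ Finset.range (B + 1), s ^ k • vv u k)]
    exact hbsum
  have h7 := hb0 u0 hu0
  rw [hM, Finset.mem_union] at hu0
  rcases hu0 with hu | hu
  · rwa [hb1 u0 hu] at h7
  · rw [hb2 u0 hu] at h7
    exact (mul_eq_zero.1 h7).resolve_right (inv_ne_zero (pow_ne_zero _ hs))

end Pool.Agent.H350R3.GR
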