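import Mathlib
import Pool.Agent.H350R3.GR.Cut

set_option autoImplicit false

/-!
# Monomials in a lattice triangle, and one fat point
-/

namespace Pool.Agent.H350R3.GR

open Polynomial Pool.Agent.H932R2 Pool.Agent.H932R3

variable {K : Type*} [Field K]

/-- All differences of order `w` of `φ` vanish. -/
def Dw : ℕ → (ℕ × ℕ → K) → Prop
  | 0, φ => ∀ u, φ u = 0
  | w + 1, φ => Dw w (fun u => φ (u.1 + 1, u.2) - φ u) ∧ Dw w (fun u => φ (u.1, u.2 + 1) - φ u)

theorem Dw.zero' (w : ℕ) : ∀ φ : ℕ × ℕ → K, (∀ u, φ u = 0) → Dw w φ := by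
  induction w with
  | zero => exact fun φ h => h
  | succ w ih =>
    intro φ h
    exact ⟨ih _ fun u => by rw [h, h, sub_zero], ih _ fun u => by rw [h, h, sub_zero]⟩

theorem Dw.succ {w : ℕ} : ∀ {φ : ℕ × ℕ → K}, Dw w φ → Dw (w + 1) φ := by
  induction w with
  | zero => exact fun {φ} h => Dw.zero' 1 φ h
  | succ w ih => exact fun {φ} h => ⟨ih h.1, ih h.2⟩

theorem Dw.add {w : ℕ} : ∀ {φ ψ : ℕ × ℕ → K}, Dw w φ → Dw w ψ → Dw w (fun u => φ u + ψ u) := by
  induction w with
  | zero =>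
    intro φ ψ h h' u
    show φ u + ψ u = 0
    rw [h u, h' u, add_zero]
  | succ w ih =>
    intro φ ψ h h'
    refine ⟨?_, ?_⟩
    · have := ih h.1 h'.1
      convert this using 2
      ring
    · have := ih h.2 h'.2
      convert this using 2
      ring

theorem Dw.smul {w : ℕ} (a : K) : ∀ {φ : ℕ × ℕ → K}, Dw w φ → Dw w (fun u => a * φ u) := by
  induction w with
  | zero =>
    intro φ h u
    show a * φ u = 0
    rw [h u, mul_zero]
  | succ w ih =>
    intro φ h
    refine ⟨?_, ?_⟩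
    · have := ih h.1
      convert this using 2
      ring
    · have := ih h.2
      convert this using 2
      ring

theorem Dw.shift1 {w : ℕ} {φ : ℕ × ℕ → K} (h : Dw w φ) : Dw w (fun u => φ (u.1 + 1, u.2)) := by
  have h1 := h.succ.1
  have h2 := h1.add h
  convert h2 using 2
  ring

theorem Dw.shift2 {w : ℕ} {φ : ℕ × ℕ → K} (h : Dw w φ) : Dw w (fun u => φ (u.1, u.2 + 1)) := by
  have h1 := h.succ.2
  have h2 := h1.add h
  convert h2 using 2
  ring

theorem Dw.mul_aff {w : ℕ} {ℓ : ℕ × ℕ → K} {α β : K} (h1 : ∀ u : ℕ × ℕ, ℓ (u.1 + 1, u.2) = ℓ u + α)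
    (h2 : ∀ u : ℕ × ℕ, ℓ (u.1, u.2 + 1) = ℓ u + β) :
    ∀ {φ : ℕ × ℕ → K}, Dw w φ → Dw (w + 1) (fun u => ℓ u * φ u) := by
  induction w with
  | zero =>
    intro φ h
    refine Dw.zero' 1 _ fun u => ?_
    rw [h u, mul_zero]
  | succ w ih =>
    intro φ h
    refine ⟨?_, ?_⟩
    · have e1 := (ih h.1).add ((h.shift1).smul α)
      convert e1 using 2 with u
      show ℓ (u.1 + 1, u.2) * φ (u.1 + 1, u.2) - ℓ u * φ u =
        ℓ u * (φ (u.1 + 1, u.2) - φ u) + α * φ (u.1 + 1, u.2)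
      rw [h1]
      ring
    · have e1 := (ih h.2).add ((h.shift2).smul β)
      convert e1 using 2 with u
      show ℓ (u.1, u.2 + 1) * φ (u.1, u.2 + 1) - ℓ u * φ u =
        ℓ u * (φ (u.1, u.2 + 1) - φ u) + β * φ (u.1, u.2 + 1)
      rw [h2]
      ring

/-- The functional `∑ c_u x ^ u ↦ ∑ c_u φ(u)`. -/
noncomputable def Lf (φ : ℕ × ℕ → K) : K[X][X] →ₗ[K] K :=
  Polynomial.lsum fun l => Polynomial.lsum fun i => φ (i, l) • (LinearMap.id : K →ₗ[K] K)

theorem Lf_mon (φ : ℕ × ℕ → K) (u : ℕ × ℕ) : Lf φ (mon K u) = φ u := by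
  have e : (mon K u : K[X][X]) = monomial u.2 (monomial u.1 (1 : K)) := by
    rw [mon, C_mul_X_pow_eq_monomial, ← Polynomial.monomial_one_right_eq_X_pow]
  rw [e, Lf, Polynomial.lsum_apply]
  rw [Polynomial.sum_monomial_index _ _ (by simp)]
  rw [Polynomial.lsum_apply]
  rw [Polynomial.sum_monomial_index _ _ (by simp)]
  simp

theorem lf_ext {f g : K[X][X] →ₗ[K] K} (h : ∀ u, f (mon K u) = g (mon K u)) : f = g := by
  refine LinearMap.ext fun P => ?_
  induction P using Polynomial.induction_on' with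
  | add p q hp hq => rw [map_add, map_add, hp, hq]
  | monomial l a =>
    induction a using Polynomial.induction_on' with
    | add p q hp hq => rw [map_add, map_add, map_add, hp, hq]
    | monomial i c =>
      have e : (monomial l (monomial i c) : K[X][X]) = c • mon K (i, l) := by
        rw [mon, ← C_mul_X_pow_eq_monomial, ← C_mul_X_pow_eq_monomial, Algebra.smul_def]
        simp only [map_mul, map_pow, Polynomial.algebraMap_apply, Algebra.algebraMap_self,
          RingHom.id_apply]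
        ring
      rw [e, map_smul, map_smul, h]

theorem Lf_CX_mul (φ : ℕ × ℕ → K) (g : K[X][X]) :
    Lf φ (C X * g) = Lf (fun u => φ (u.1 + 1, u.2)) g := by
  have h : (Lf φ).comp (LinearMap.mulLeft K (C X : K[X][X])) =
      Lf (fun u => φ (u.1 + 1, u.2)) := by
    refine lf_ext fun u => ?_
    rw [LinearMap.comp_apply, LinearMap.mulLeft_apply, Lf_mon]
    have e : (C X : K[X][X]) * mon K u = mon K (u.1 + 1, u.2) := by
      rw [mon, mon, pow_succ' (X : K[X]) u.1, C_mul, mul_assoc]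
    rw [e, Lf_mon]
  exact LinearMap.congr_fun h g

theorem Lf_X_mul (φ : ℕ × ℕ → K) (g : K[X][X]) :
    Lf φ (X * g) = Lf (fun u => φ (u.1, u.2 + 1)) g := by
  have h : (Lf φ).comp (LinearMap.mulLeft K (X : K[X][X])) =
      Lf (fun u => φ (u.1, u.2 + 1)) := by
    refine lf_ext fun u => ?_
    rw [LinearMap.comp_apply, LinearMap.mulLeft_apply, Lf_mon]
    have e : (X : K[X][X]) * mon K u = mon K (u.1, u.2 + 1) := by
      rw [mon, mon, pow_succ' (X : K[X][X]) u.2]
      ring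
    rw [e, Lf_mon]
  exact LinearMap.congr_fun h g

theorem Lf_sub (φ ψ : ℕ × ℕ → K) (g : K[X][X]) :
    Lf φ g - Lf ψ g = Lf (fun u => φ u - ψ u) g := by
  have h : Lf φ - Lf ψ = Lf (fun u => φ u - ψ u) := by
    refine lf_ext fun u => ?_
    rw [LinearMap.sub_apply, Lf_mon, Lf_mon, Lf_mon]
  rw [← LinearMap.sub_apply, h]

theorem Lf_zero_of_mem (w : ℕ) : ∀ (φ : ℕ × ℕ → K), Dw w φ → ∀ f ∈ ptI (1 : K) 1 w,
    Lf φ f = 0 := by
  induction w with
  | zero =>
    intro φ h f _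
    have : Lf φ = 0 := lf_ext fun u => by rw [Lf_mon, h u]; rfl
    rw [this]
    rfl
  | succ w ih =>
    intro φ h f hf
    have hf' : f ∈ (Ideal.span {X - C (C (1 : K)), C (rootPoly (fun _ : Fin 1 => (1 : K)))} :
        Ideal K[X][X]) * ptI (1 : K) 1 w := by
      have : ptI (1 : K) 1 (w + 1) = (Ideal.span {X - C (C (1 : K)),
          C (rootPoly (fun _ : Fin 1 => (1 : K)))} : Ideal K[X][X]) * ptI (1 : K) 1 w := by
        show (_ : Ideal K[X][X]) ^ (w + 1) = _ * (_ : Ideal K[X][X]) ^ w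
        exact pow_succ' (M := Ideal K[X][X]) _ _
      rw [← this]
      exact hf
    refine Submodule.mul_induction_on hf' ?_ ?_
    · intro a ha b hb
      obtain ⟨p, q, rfl⟩ := Ideal.mem_span_pair.1 ha
      have e : (p * (X - C (C (1 : K))) + q * C (rootPoly (fun _ : Fin 1 => (1 : K)))) * b =
          (X * (p * b) - p * b) + (C X * (q * b) - q * b) := by
        rw [rootPoly_const, pow_one, C_sub, C_1, C_1]
        ring
      rw [e, map_add, map_sub, map_sub, Lf_X_mul, Lf_CX_mul, Lf_sub, Lf_sub,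
        ih _ h.2 _ (Ideal.mul_mem_left _ _ hb), ih _ h.1 _ (Ideal.mul_mem_left _ _ hb), add_zero]
    · intro x y hx hy
      rw [map_add, hx, hy, add_zero]

/-- `∏_{i < a} (ℓ - i)`. -/
noncomputable def desc (ℓ : ℕ × ℕ → K) (a : ℕ) (u : ℕ × ℕ) : K :=
  ∏ i ∈ Finset.range a, (ℓ u - i)

theorem Dw_desc {ℓ : ℕ × ℕ → K} {α β : K} (h1 : ∀ u : ℕ × ℕ, ℓ (u.1 + 1, u.2) = ℓ u + α)
    (h2 : ∀ u : ℕ × ℕ, ℓ (u.1, u.2 + 1) = ℓ u + β) {w : ℕ} {φ : ℕ × ℕ → K} (h : Dw w φ) (a : ℕ) :
    Dw (w + a) (fun u => desc ℓ a u * φ u) := by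
  induction a with
  | zero =>
    have e : (fun u => desc ℓ 0 u * φ u) = φ := by
      funext u
      simp [desc]
    rw [e]
    exact h
  | succ a ih =>
    have h3 := Dw.mul_aff (ℓ := fun u => ℓ u - a) (α := α) (β := β)
      (fun u => by simp only [h1]; ring) (fun u => by simp only [h2]; ring) ih
    have e : (fun u => desc ℓ (a + 1) u * φ u) = fun u => (ℓ u - a) * (desc ℓ a u * φ u) := by
      funext u
      unfold desc
      rw [Finset.prod_range_succ]
      ring
    rw [e]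
    exact h3

theorem desc_zero {ℓ : ℕ × ℕ → K} {a n : ℕ} {u : ℕ × ℕ} (h : ℓ u = n) (hn : n < a) :
    desc ℓ a u = 0 := by
  unfold desc
  refine Finset.prod_eq_zero (Finset.mem_range.2 hn) ?_
  rw [h, sub_self]

theorem desc_ne [CharZero K] {ℓ : ℕ × ℕ → K} {a : ℕ} {u : ℕ × ℕ} (h : ℓ u = a) :
    desc ℓ a u ≠ 0 := by
  unfold desc
  rw [Finset.prod_ne_zero_iff]
  intro i hi
  rw [h, sub_ne_zero]
  exact_mod_cast (Finset.mem_range.1 hi).ne'

/-- Integral affine functions. -/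
def aff (p q r : ℤ) (u : ℕ × ℕ) : ℤ := p * u.1 + q * u.2 + r

/-- **Monomials in a lattice triangle of size `w`.** -/
theorem base_tri [CharZero K] {w : ℕ} {p1 q1 r1 p2 q2 r2 : ℤ} (hdet : p1 * q2 - p2 * q1 ≠ 0)
    {M : Finset (ℕ × ℕ)} (h1 : ∀ u ∈ M, 0 ≤ aff p1 q1 r1 u) (h2 : ∀ u ∈ M, 0 ≤ aff p2 q2 r2 u)
    (h3 : ∀ u ∈ M, aff p1 q1 r1 u + aff p2 q2 r2 u < w) : Indep (ptI (1 : K) 1 w) M := by
  intro c hc
  have hinj : ∀ u v : ℕ × ℕ, aff p1 q1 r1 u = aff p1 q1 r1 v → aff p2 q2 r2 u = aff p2 q2 r2 v →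
      u = v := by
    intro u v e1 e2
    unfold aff at e1 e2
    have e3 : (p1 * q2 - p2 * q1) * ((u.1 : ℤ) - v.1) = 0 := by
      linear_combination q2 * e1 - q1 * e2
    have e4 : (p1 * q2 - p2 * q1) * ((u.2 : ℤ) - v.2) = 0 := by
      linear_combination p1 * e2 - p2 * e1
    have e5 := (mul_eq_zero.1 e3).resolve_left hdet
    have e6 := (mul_eq_zero.1 e4).resolve_left hdet
    exact Prod.ext (by omega) (by omega)
  have key : ∀ k : ℕ, ∀ u ∈ M, (w : ℤ) ≤ aff p1 q1 r1 u + aff p2 q2 r2 u + k → c u = 0 := by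
    intro k
    induction k with
    | zero =>
      intro u hu hk
      have := h3 u hu
      push_cast at hk
      omega
    | succ k ih =>
      intro u0 hu0 hk
      by_cases hk' : (w : ℤ) ≤ aff p1 q1 r1 u0 + aff p2 q2 r2 u0 + k
      · exact ih u0 hu0 hk'
      obtain ⟨a, ha⟩ : ∃ a : ℕ, (a : ℤ) = aff p1 q1 r1 u0 := ⟨_, Int.toNat_of_nonneg (h1 u0 hu0)⟩
      obtain ⟨b, hb⟩ : ∃ b : ℕ, (b : ℤ) = aff p2 q2 r2 u0 := ⟨_, Int.toNat_of_nonneg (h2 u0 hu0)⟩
      let ℓ1 : ℕ × ℕ → K := fun u => (aff p1 q1 r1 u : K)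
      let ℓ2 : ℕ × ℕ → K := fun u => (aff p2 q2 r2 u : K)
      let φ : ℕ × ℕ → K := fun u => desc ℓ1 a u * (desc ℓ2 b u * 1)
      have hD1 : Dw 1 (fun _ : ℕ × ℕ => (1 : K)) := by
        refine ⟨fun u => ?_, fun u => ?_⟩ <;> simp
      have hD2 : Dw (1 + b) (fun u => desc ℓ2 b u * 1) :=
        Dw_desc (ℓ := ℓ2) (α := (p2 : K)) (β := (q2 : K))
          (fun u => by simp only [ℓ2, aff]; push_cast; ring)
          (fun u => by simp only [ℓ2, aff]; push_cast; ring) hD1 b
      have hD3 : Dw (1 + b + a) φ :=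
        Dw_desc (ℓ := ℓ1) (α := (p1 : K)) (β := (q1 : K))
          (fun u => by simp only [ℓ1, aff]; push_cast; ring)
          (fun u => by simp only [ℓ1, aff]; push_cast; ring) hD2 a
      have hle : 1 + b + a ≤ w := by
        have := h3 u0 hu0
        omega
      have hD4 : Dw w φ := by
        obtain ⟨j, rfl⟩ := Nat.exists_eq_add_of_le hle
        clear hle hk hk' ih hc h3
        induction j with
        | zero => exact hD3
        | succ j ihj => exact ihj.succ
      have h5 := Lf_zero_of_mem w φ hD4 _ hc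
      rw [map_sum] at h5
      simp only [map_smul, Lf_mon, smul_eq_mul] at h5
      rw [Finset.sum_eq_single u0] at h5
      · have h6 : φ u0 ≠ 0 := by
          refine mul_ne_zero (desc_ne ?_) (mul_ne_zero (desc_ne ?_) one_ne_zero)
          · show ((aff p1 q1 r1 u0 : ℤ) : K) = a
            rw [← ha]
            norm_cast
          · show ((aff p2 q2 r2 u0 : ℤ) : K) = b
            rw [← hb]
            norm_cast
        exact (mul_eq_zero.1 h5).resolve_right h6
      · intro u hu hne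
        obtain ⟨a', ha'⟩ : ∃ a : ℕ, (a : ℤ) = aff p1 q1 r1 u :=
          ⟨_, Int.toNat_of_nonneg (h1 u hu)⟩
        obtain ⟨b', hb'⟩ : ∃ b : ℕ, (b : ℤ) = aff p2 q2 r2 u :=
          ⟨_, Int.toNat_of_nonneg (h2 u hu)⟩
        rcases Nat.lt_or_ge a' a with h7 | h7
        · have : desc ℓ1 a u = 0 := desc_zero (n := a') (by
            show ((aff p1 q1 r1 u : ℤ) : K) = a'
            rw [← ha']
            norm_cast) h7
          simp only [φ, this, zero_mul, mul_zero]
        rcases Nat.lt_or_ge b' b with h8 | h8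
        · have : desc ℓ2 b u = 0 := desc_zero (n := b') (by
            show ((aff p2 q2 r2 u : ℤ) : K) = b'
            rw [← hb']
            norm_cast) h8
          simp only [φ, this, zero_mul, mul_zero]
        rw [ih u hu ?_, zero_mul]
        by_contra hcon
        apply hne
        refine hinj u u0 ?_ ?_
        · push_cast at hk
          omega
        · push_cast at hk
          omega
      · exact fun h => absurd hu0 h
  intro u hu
  refine key w u hu ?_
  have := h1 u hu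
  have := h2 u hu
  omega

end Pool.Agent.H350R3.GR
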