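import Mathlib
import Pool.Agent.H350R3.QM.CloseR

set_option autoImplicit false

/-!
# Reachable slopes close to a given one
-/

namespace Pool.Agent.H350R3.GR

open Pool.Agent.H932R3 Pool.Agent.H350R3.QM

theorem reach_frac {p q : ℕ} (h : q ^ 2 ≤ p) : Reach q (((p : ℝ) / q) ^ 2) := by
  rw [div_pow]
  exact Reach.step _ p Reach.base (by exact_mod_cast h)

theorem beta_mid {t : ℝ} (ht : 4 ≤ t) : ∃ (δ : ℕ) (σ : ℝ), 2 ≤ δ ∧ Reach δ σ ∧
    Real.sqrt σ * max 1 (t / σ) ≤ (1 + 1 / (2 * (⌊Real.sqrt t⌋₊ : ℝ) ^ 2)) * Real.sqrt t := by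
  obtain ⟨x, hx⟩ : ∃ x, x = Real.sqrt t := ⟨_, rfl⟩
  have hx2 : x * x = t := by
    rw [hx]
    exact Real.mul_self_sqrt (by linarith)
  have hx0 : 0 ≤ x := by
    rw [hx]
    exact Real.sqrt_nonneg t
  have hx4 : 2 ≤ x := by nlinarith
  rw [← hx]
  obtain ⟨q, hq⟩ : ∃ q : ℕ, q = ⌊x⌋₊ := ⟨_, rfl⟩
  have hq2 : 2 ≤ q := by
    rw [hq]
    exact Nat.le_floor (by exact_mod_cast hx4)
  have hqx : (q : ℝ) ≤ x := by
    rw [hq]
    exact Nat.floor_le hx0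
  rw [← hq]
  have hqR : (2 : ℝ) ≤ q := by exact_mod_cast hq2
  obtain ⟨p, hp⟩ : ∃ p : ℕ, p = ⌊(q : ℝ) * x⌋₊ := ⟨_, rfl⟩
  have hpq : q ^ 2 ≤ p := by
    rw [hp]
    refine Nat.le_floor ?_
    push_cast
    nlinarith
  have hp3 : (p : ℝ) ≤ q * x := by
    rw [hp]
    exact Nat.floor_le (by positivity)
  have hp4 : q * x < (p : ℝ) + 1 := by
    rw [hp]
    exact Nat.lt_floor_add_one _
  have hpR : (q : ℝ) ^ 2 ≤ p := by exact_mod_cast hpq
  have hp0 : (0 : ℝ) < p := by nlinarith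
  have hq0 : (0 : ℝ) < q := by linarith
  have hval : ∀ m : ℕ, q ^ 2 ≤ m → ∀ B : ℝ,
      (m : ℝ) / q * max 1 (t / ((m : ℝ) / q) ^ 2) ≤ B →
      ∃ (δ : ℕ) (σ : ℝ), 2 ≤ δ ∧ Reach δ σ ∧ Real.sqrt σ * max 1 (t / σ) ≤ B := by
    intro m hm1 B hB
    refine ⟨q, ((m : ℝ) / q) ^ 2, hq2, reach_frac hm1, ?_⟩
    rw [Real.sqrt_sq (by positivity)]
    exact hB
  obtain ⟨e, he⟩ : ∃ e : ℝ, e = 1 / (2 * (q : ℝ) ^ 2) := ⟨_, rfl⟩
  have he0 : 0 < e := by
    rw [he]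
    positivity
  have heq : 2 * e * (q : ℝ) ^ 2 = 1 := by
    rw [he]
    field_simp
  rw [← he]
  rcases le_or_gt (((p + 1 : ℕ) : ℝ) / q) ((1 + e) * x) with hc1 | hc1
  · refine hval (p + 1) (by omega) _ ?_
    have h1 : t / (((p + 1 : ℕ) : ℝ) / q) ^ 2 ≤ 1 := by
      rw [div_le_one (by positivity)]
      have h2 : x ≤ ((p + 1 : ℕ) : ℝ) / q := by
        rw [le_div_iff₀ hq0]
        push_cast
        linarith
      nlinarith
    rw [max_eq_left h1, mul_one]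
    exact hc1
  · refine hval p hpq _ ?_
    have h3 : (p : ℝ) / q ≤ x := by
      rw [div_le_iff₀ hq0]
      linarith
    have h1 : 1 ≤ t / ((p : ℝ) / q) ^ 2 := by
      rw [one_le_div (by positivity)]
      have : (0 : ℝ) ≤ (p : ℝ) / q := by positivity
      nlinarith
    rw [max_eq_right h1]
    have h4 : (p : ℝ) / q * (t / ((p : ℝ) / q) ^ 2) = t * q / p := by
      field_simp
    rw [h4, div_le_iff₀ hp0]
    rw [lt_div_iff₀ hq0] at hc1
    push_cast at hc1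
    have h6 : x * q ≤ (1 + e) * p := by
      have h7 : 1 ≤ 2 * e * p := by
        rw [← heq]
        exact mul_le_mul_of_nonneg_left hpR (by positivity)
      nlinarith
    have h8 := mul_le_mul_of_nonneg_left h6 hx0
    rw [← hx2]
    linarith

theorem beta_large (n : ℕ) : ∃ N : ℕ, ∀ t : ℝ, (N : ℝ) ≤ t → ∃ (δ : ℕ) (σ : ℝ), 4 ≤ δ ∧
    Reach δ σ ∧ Real.sqrt σ * max 1 (t / σ) ≤ (1 + 1 / t ^ n) * Real.sqrt t := by
  obtain ⟨N, hN⟩ := exists_close_real (n + 2)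
  refine ⟨max N 2, fun t ht => ?_⟩
  have hNt : (N : ℝ) ≤ t := by
    refine le_trans ?_ ht
    exact_mod_cast le_max_left N 2
  have ht2 : 2 ≤ t := by
    refine le_trans ?_ ht
    exact_mod_cast le_max_right N 2
  obtain ⟨δ, σ, hδ, hδt, hσ, hσ1, hσ2⟩ := hN t hNt
  refine ⟨δ, σ, hδ, hσ, ?_⟩
  have hσ0 : 0 < σ := hσ.pos (by omega)
  have ht0 : 0 < t := by linarith
  have htn : 1 ≤ t ^ n := one_le_pow₀ (by linarith)
  have ht2' : 1 ≤ t ^ 2 := one_le_pow₀ (by linarith)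
  have hσ3 : (t - σ) * t ^ n * t ^ 2 ≤ 1 := by
    rw [le_div_iff₀ (by positivity), pow_add] at hσ2
    linarith
  have hσ4 : (t - σ) * t ^ n ≤ 1 := by
    have h1 : 0 ≤ (t - σ) * t ^ n := by positivity
    nlinarith
  have hσ5 : t - σ ≤ 1 := by nlinarith
  have hσ6 : 1 ≤ σ := by linarith
  obtain ⟨u, hu⟩ : ∃ u, u = Real.sqrt (t / σ) := ⟨_, rfl⟩
  have hu2 : u * u = t / σ := by
    rw [hu]
    exact Real.mul_self_sqrt (by positivity)
  have hu1 : 1 ≤ u := by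
    rw [hu]
    refine Real.one_le_sqrt.2 ?_
    rw [one_le_div hσ0]
    linarith
  have hts : 1 ≤ t / σ := by
    rw [one_le_div hσ0]
    linarith
  have hst0 : 0 < Real.sqrt t := Real.sqrt_pos.2 ht0
  have hss0 : 0 < Real.sqrt σ := Real.sqrt_pos.2 hσ0
  have hμ : Real.sqrt σ * max 1 (t / σ) = Real.sqrt t * u := by
    rw [max_eq_right hts, hu, Real.sqrt_div ht0.le]
    have h1 : Real.sqrt σ * Real.sqrt σ = σ := Real.mul_self_sqrt hσ0.le
    have h2 : Real.sqrt t * Real.sqrt t = t := Real.mul_self_sqrt ht0.le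
    rw [mul_div_assoc', mul_div_assoc', div_eq_div_iff hσ0.ne' hss0.ne', h2]
    linear_combination t * h1
  have hu3 : u - 1 ≤ (t - σ) / 2 := by
    have h1 : t / σ - 1 ≤ t - σ := by
      rw [div_sub_one hσ0.ne', div_le_iff₀ hσ0]
      nlinarith
    nlinarith
  rw [hμ]
  have h3 : u ≤ 1 + 1 / t ^ n := by
    have h4 : t - σ ≤ 1 / t ^ n := by
      rw [le_div_iff₀ (by positivity)]
      exact hσ4
    linarith
  calc Real.sqrt t * u = u * Real.sqrt t := by ring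
    _ ≤ (1 + 1 / t ^ n) * Real.sqrt t := mul_le_mul_of_nonneg_right h3 hst0.le

end Pool.Agent.H350R3.GR
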