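import Mathlib
import Pool.Agent.H350R3.GR.Euc
import Pool.Agent.H350R3.QM.Fam

set_option autoImplicit false

/-!
# Emptiness for the Euclidean multiplicities
-/

namespace Pool.Agent.H350R3.GR

open Polynomial Pool.Agent.H932R2 Pool.Agent.H932R3 Pool.Agent.H350R3.QM

variable {K : Type*} [Field K]

theorem rank_gen [Infinite K] {𝓘 : Set (Ideal K[X][X])} (h𝓘 : Stable 𝓘) {σ s : ℝ}
    {δ d B : ℕ} (hδ : 2 ≤ δ)
    (hbase : RkS 𝓘 (↑(Wt σ s) : Set (ℕ × ℕ)) (Wt σ s).card)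
    (hd : δ * ((δ - 1) * (δ - 2)) ≤ 2 * d) (hB : δ * d ≤ B)
    (hK : ∀ k : ℕ, 0 < k → k ≤ B → (k : K) ≠ 0) (hσ : Reach δ σ)
    (h1 : (2 * (d : ℝ) + 3 - δ) / 2 * Real.sqrt σ < s) :
    RkS 𝓘 (Tset d) (Tfin d).card := by
  have hml := Nat.mod_lt d (show 0 < δ by omega)
  have hdm := Nat.div_add_mod d δ
  obtain ⟨u, t', j, ht', hj, hz, hV, himp⟩ := initialV (n := (Tfin d).card) h𝓘 hδ
    (show d + 1 = δ * (d / δ) + (d % δ + 1) by omega) hml (YY_le hδ hd) hB hK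
  refine himp ?_
  have hδ0 : 0 < δ := by omega
  have hδ' : (0 : ℝ) < δ := by exact_mod_cast hδ0
  have hcard : (Lfin (δ * δ) u t' j).card = (Tfin d).card :=
    card_of_sz hj (hz.trans (card_Tfin d).symm)
  rw [← coe_Lfin ht' hj, ← hcard]
  have hc := cc_two δ
  obtain ⟨V, hVd⟩ : ∃ V : ℝ, V = ((δ * δ * u + t' : ℕ) : ℝ) := ⟨_, rfl⟩
  have hVe : 2 * V = δ * (2 * (d : ℝ) + 3 - δ) := by
    have h3 : ((δ * δ * u + t' + cc δ : ℕ) : ℝ) = ((δ * (d + 1) : ℕ) : ℝ) := by rw [hV]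
    have h4 : ((2 * cc δ + δ : ℕ) : ℝ) = ((δ * δ : ℕ) : ℝ) := by rw [hc]
    rw [hVd]
    push_cast at h3 h4 ⊢
    linarith
  have hLV : ∀ p ∈ Lfin (δ * δ) u t' j, (p.1 : ℝ) + (δ : ℝ) ^ 2 * (p.2 : ℝ) ≤ V := by
    rintro ⟨i, l⟩ hp
    have h3 : ((i, l) : ℕ × ℕ) ∈ (↑(Lfin (δ * δ) u t' j) : Set (ℕ × ℕ)) := hp
    rw [coe_Lfin ht' hj, mem_Lset] at h3
    have h4 : i + δ * δ * l ≤ δ * δ * u + t' := by omega
    have h5 : ((i + δ * δ * l : ℕ) : ℝ) ≤ ((δ * δ * u + t' : ℕ) : ℝ) := by exact_mod_cast h4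
    rw [← hVd] at h5
    push_cast at h5
    simp only
    nlinarith
  have hLB : ∀ p ∈ Lfin (δ * δ) u t' j, p.2 ≤ B := by
    rintro ⟨i, l⟩ hp
    have h3 : ((i, l) : ℕ × ℕ) ∈ (↑(Lfin (δ * δ) u t' j) : Set (ℕ × ℕ)) := hp
    rw [coe_Lfin ht' hj, mem_Lset] at h3
    have h4 : δ * δ * l ≤ δ * δ * u + t' := by omega
    have h5 : δ * (δ * l) ≤ δ * (d + 1) := by
      rw [← Nat.mul_assoc]
      omega
    have h6 : δ * l ≤ d + 1 := Nat.le_of_mul_le_mul_left h5 hδ0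
    have h7 : 2 * l ≤ δ * l := Nat.mul_le_mul_right _ hδ
    have h8 : 2 * d ≤ δ * d := Nat.mul_le_mul_right _ hδ
    simp only
    omega
  obtain ⟨M', h3, h4, h5, h6⟩ := reach_chain h𝓘 hδ0 hK hLB hLV hσ
  refine h6 (hbase.subset ?_)
  have hσ0 : 0 < σ := hσ.pos hδ0
  have hs0 : 0 < Real.sqrt σ := Real.sqrt_pos.2 hσ0
  have hss : Real.sqrt σ * Real.sqrt σ = σ := Real.mul_self_sqrt hσ0.le
  rintro ⟨i, l⟩ hp
  have h7 := h5 _ hp
  simp only at h7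
  have h8 : (i : ℝ) + σ * l ≤ (2 * (d : ℝ) + 3 - δ) / 2 * Real.sqrt σ := by
    have h9 : (δ / Real.sqrt σ * (i : ℝ) + δ * Real.sqrt σ * (l : ℝ)) * (Real.sqrt σ / δ) =
        i + σ * l := by
      field_simp
      rw [pow_two, hss]
      ring
    rw [← h9]
    have h10 : V = δ * ((2 * (d : ℝ) + 3 - δ) / 2) := by linarith
    have h11 : (2 * (d : ℝ) + 3 - δ) / 2 * Real.sqrt σ = V * (Real.sqrt σ / δ) := by
      rw [h10]
      field_simp
    rw [h11]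
    exact mul_le_mul_of_nonneg_right h7 (by positivity)
  rw [mem_Wt hσ0]
  exact lt_of_le_of_lt h8 h1

/-- **Emptiness for the Euclidean multiplicities.** -/
theorem empty_mult [CharZero K] {p q k δ D : ℕ} (hp : 0 < p) (hq : 0 < q) (hk : 0 < k)
    (hδ : 2 ≤ δ) (hR : Reach δ (((p : ℝ) / q) ^ 2)) {L : List ℕ} (hL : Mult (p ^ 2) (q ^ 2) L)
    (hd : δ * ((δ - 1) * (δ - 2)) ≤ 2 * D)
    (h1 : (2 * (D : ℝ) + 3 - δ) / 2 * (p / q) < k * p ^ 2) :
    ∃ J, PtI (K := K) (L.map fun m => k * m) J ∧ NoForm J D := by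
  have hinf : Infinite K := inferInstance
  have hp' : (0 : ℝ) < p := by exact_mod_cast hp
  have hq' : (0 : ℝ) < q := by exact_mod_cast hq
  have hk' : (0 : ℝ) < k := by exact_mod_cast hk
  have hσ : (0 : ℝ) < ((p : ℝ) / q) ^ 2 := by positivity
  have hM := hL.scale hk
  obtain ⟨J, hJ, hI⟩ := hM.indep (K := K) (p1 := 1) (q1 := 0) (r1 := 0) (p2 := 0) (q2 := 1)
    (r2 := 0) (by norm_num) (M := Wt (((p : ℝ) / q) ^ 2) (k * p ^ 2))
    (fun u _ => by unfold aff; positivity) (fun u _ => by unfold aff; positivity)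
    (fun u hu => by
      obtain ⟨i, l⟩ := u
      rw [mem_Wt hσ] at hu
      unfold aff
      simp only
      have h2 : (i : ℝ) * (k * q ^ 2) + l * (k * p ^ 2) < (k * p ^ 2) * (k * q ^ 2) := by
        have h3 := mul_lt_mul_of_pos_right hu (show (0 : ℝ) < k * q ^ 2 by positivity)
        have h4 : ((i : ℝ) + ((p : ℝ) / q) ^ 2 * l) * (k * q ^ 2) =
            i * (k * q ^ 2) + l * (k * p ^ 2) := by
          field_simp
        rw [h4] at h3
        exact h3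
      have h5 : i * (k * q ^ 2) + l * (k * p ^ 2) < (k * p ^ 2) * (k * q ^ 2) := by
        exact_mod_cast h2
      have h6 : ((i * (k * q ^ 2) + l * (k * p ^ 2) : ℕ) : ℤ) <
          (((k * p ^ 2) * (k * q ^ 2) : ℕ) : ℤ) := by exact_mod_cast h5
      push_cast at h6 ⊢
      linarith)
  have h3 := rank_gen (K := K) (PtI.stable (L.map fun m => k * m)) (σ := ((p : ℝ) / q) ^ 2)
    (s := k * p ^ 2) (B := δ * D) hδ ⟨J, hJ, hI.rk⟩ hd le_rfl
    (fun j hj _ => by exact_mod_cast hj.ne') hR (by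
      rw [Real.sqrt_sq (by positivity)]
      exact h1)
  obtain ⟨J', hJ', hR'⟩ := h3
  exact ⟨J', hJ', NoForm.of_rk hR'⟩

theorem PtI.points_aux {L : List ℕ} {J : Ideal K[X][X]} (h : PtI L J) :
    ∃ Q : Fin L.length → Fin 2 → K, ∀ {n : ℕ} (w : Fin n → ℕ) (g : Fin L.length → Fin n),
      (∀ i, L.get i ≤ w (g i)) → ∀ P : Fin n → Fin 2 → K, (∀ i, P (g i) = Q i) → ptJ P w ≤ J := by
  induction h with
  | nil => exact ⟨fun _ _ => 0, fun _ _ _ _ _ => le_top⟩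
  | cons m L J a b _ ih =>
    obtain ⟨Q, hQ⟩ := ih
    refine ⟨(Fin.cons ![a, b] Q : Fin (L.length + 1) → Fin 2 → K), fun w g hw P hP => ?_⟩
    refine le_inf ?_ ?_
    · have h0 : P (g 0) = ![a, b] := hP 0
      have h1 : m ≤ w (g 0) := hw 0
      have h2 : ptJ P w ≤ cIdeal (fun _ : Fin 1 => P (g 0) 0) (C (P (g 0) 1)) (w (g 0)) := by
        unfold ptJ vIdeal
        exact iInf_le (fun c => cIdeal (fun _ : Fin 1 => P c 0) (C (P c 1)) (w c)) (g 0)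
      refine h2.trans ?_
      rw [h0]
      unfold ptI cIdeal
      exact Ideal.pow_le_pow_right h1
    · exact hQ w (fun i => g i.succ) (fun i => hw i.succ) P fun i => hP i.succ

/-- Families of points. -/
theorem PtI.points {L : List ℕ} {J : Ideal K[X][X]} (h : PtI L J) {n : ℕ} (w : Fin n → ℕ)
    (g : Fin L.length → Fin n) (hg : Function.Injective g) (hw : ∀ i, L.get i ≤ w (g i)) :
    ∃ P0 : Fin n → Fin 2 → K, ptJ P0 w ≤ J := by
  obtain ⟨Q, hQ⟩ := h.points_aux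
  exact ⟨Function.extend g Q 0, hQ w g hw _ fun i => hg.extend_apply _ _ _⟩

/-- **All emptiness statements that hold for some points hold for very general points.** -/
theorem exists_conds_all [Infinite K] (n : ℕ) :
    ∃ f : ℕ → MvPolynomial (Fin n × Fin 2) K, (∀ j, f j ≠ 0) ∧ ∀ P : Fin n → Fin 2 → K,
      (∀ j, MvPolynomial.eval (fun q : Fin n × Fin 2 => P q.1 q.2) (f j) ≠ 0) →
      ∀ (d : ℕ) (w : Fin n → ℕ), (∃ P0 : Fin n → Fin 2 → K, NoForm (ptJ P0 w) d) →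
        NoForm (ptJ P w) d := by
  classical
  obtain ⟨e, he⟩ := exists_surjective_nat (ℕ × (Fin n → ℕ))
  have h1 : ∀ j : ℕ, ∃ f : MvPolynomial (Fin n × Fin 2) K, f ≠ 0 ∧
      ∀ P : Fin n → Fin 2 → K,
      MvPolynomial.eval (fun q : Fin n × Fin 2 => P q.1 q.2) f ≠ 0 →
      (∃ P0 : Fin n → Fin 2 → K, NoForm (ptJ P0 (e j).2) (e j).1) →
      NoForm (ptJ P (e j).2) (e j).1 := by
    intro j
    by_cases h : ∃ P0 : Fin n → Fin 2 → K, NoForm (ptJ P0 (e j).2) (e j).1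
    · obtain ⟨P0, hP0⟩ := h
      obtain ⟨F, hF, hF'⟩ := points_open _ P0 hP0
      exact ⟨F, hF, fun P hP _ => hF' P hP⟩
    · exact ⟨1, one_ne_zero, fun P _ h1 => absurd h1 h⟩
  choose f hf hf' using h1
  refine ⟨f, hf, fun P hP d w hE => ?_⟩
  obtain ⟨j, hj⟩ := he (d, w)
  have h2 := hf' j P (hP j)
  rw [hj] at h2
  exact h2 hE

end Pool.Agent.H350R3.GR
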