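import Mathlib
import Pool.Agent.H350R3.GR.Rank
import Pool.Agent.H350R3.QM.CloseR
import Pool.Agent.H932R3.Cone

set_option autoImplicit false

/-!
# Arbitrary multiplicities at the points of the Euclidean subdivision
-/

namespace Pool.Agent.H350R3.GR

open Polynomial Pool.Agent.H932R2 Pool.Agent.H932R3 Pool.Agent.H350R3.QM

variable {K : Type*} [Field K]

/-- **The polynomials of small weight are independent modulo the ideal of suitable points with
arbitrary multiplicities.** -/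
theorem Mult.indepW [CharZero K] {A B : ℕ} {L : List ℕ} (h : Mult A B L) :
    ∀ W : List ℕ, W.length = L.length →
    ∀ {p1 q1 r1 p2 q2 r2 : ℤ}, p1 * q2 - p2 * q1 ≠ 0 → ∀ {M : Finset (ℕ × ℕ)},
      (∀ u ∈ M, 0 ≤ aff p1 q1 r1 u) → (∀ u ∈ M, 0 ≤ aff p2 q2 r2 u) →
      (∀ u ∈ M, aff p1 q1 r1 u * B + aff p2 q2 r2 u * A <
        ((List.zipWith (fun x y => x * y) L W).sum : ℕ)) →
      ∃ J, PtI (K := K) W J ∧ Indep J M := by
  induction h with
  | left A =>
    intro W hW p1 q1 r1 p2 q2 r2 _ M _ h2 h3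
    have hW0 : W = [] := List.length_eq_zero_iff.1 hW
    subst hW0
    refine ⟨⊤, PtI.nil, fun c _ u hu => ?_⟩
    have h4 := h2 u hu
    have h5 := h3 u hu
    have h6 : (0 : ℤ) ≤ aff p2 q2 r2 u * A := by positivity
    simp at h5
    linarith
  | right B =>
    intro W hW p1 q1 r1 p2 q2 r2 _ M h1 _ h3
    have hW0 : W = [] := List.length_eq_zero_iff.1 hW
    subst hW0
    refine ⟨⊤, PtI.nil, fun c _ u hu => ?_⟩
    have h4 := h1 u hu
    have h5 := h3 u hu
    have h6 : (0 : ℤ) ≤ aff p1 q1 r1 u * B := by positivity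
    simp at h5
    linarith
  | big A B L _ h _ ih =>
    intro W hW p1 q1 r1 p2 q2 r2 hdet M h1 h2 h3
    obtain ⟨w, W', rfl⟩ : ∃ w W', W = w :: W' := by
      cases W with
      | nil => simp at hW
      | cons w W' => exact ⟨w, W', rfl⟩
    have hW' : W'.length = L.length := by simpa using hW
    refine step hdet h1 h2 ?_
    refine ih W' hW' (p1 := p1 + p2) (q1 := q1 + q2) (r1 := r1 + r2 - w) (p2 := p2) (q2 := q2)
      (r2 := r2) ?_ ?_ ?_ ?_
    · have : (p1 + p2) * q2 - p2 * (q1 + q2) = p1 * q2 - p2 * q1 := by ring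
      rwa [this]
    · intro u hu
      rw [aff_sub, aff_add]
      have := (Finset.mem_filter.1 hu).2
      linarith
    · intro u hu
      exact h2 u (Finset.mem_filter.1 hu).1
    · intro u hu
      rw [aff_sub, aff_add]
      have := h3 u (Finset.mem_filter.1 hu).1
      rw [List.zipWith_cons_cons, List.sum_cons] at this
      push_cast at this
      rw [Nat.cast_sub h]
      push_cast
      nlinarith
  | small A B L _ h _ ih =>
    intro W hW p1 q1 r1 p2 q2 r2 hdet M h1 h2 h3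
    obtain ⟨w, W', rfl⟩ : ∃ w W', W = w :: W' := by
      cases W with
      | nil => simp at hW
      | cons w W' => exact ⟨w, W', rfl⟩
    have hW' : W'.length = L.length := by simpa using hW
    refine step hdet h1 h2 ?_
    refine ih W' hW' (p1 := p1) (q1 := q1) (r1 := r1) (p2 := p1 + p2) (q2 := q1 + q2)
      (r2 := r1 + r2 - w) ?_ ?_ ?_ ?_
    · have : p1 * (q1 + q2) - (p1 + p2) * q1 = p1 * q2 - p2 * q1 := by ring
      rwa [this]
    · intro u hu
      exact h1 u (Finset.mem_filter.1 hu).1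
    · intro u hu
      rw [aff_sub, aff_add]
      have := (Finset.mem_filter.1 hu).2
      linarith
    · intro u hu
      rw [aff_sub, aff_add]
      have := h3 u (Finset.mem_filter.1 hu).1
      rw [List.zipWith_cons_cons, List.sum_cons] at this
      push_cast at this
      rw [Nat.cast_sub h]
      push_cast
      nlinarith

theorem rank_genT [Infinite K] {𝓘 : Set (Ideal K[X][X])} (h𝓘 : Stable 𝓘) {t σ s : ℝ}
    (ht : 0 < t) {δ d B : ℕ} (hδ : 2 ≤ δ)
    (hbase : RkS 𝓘 (↑(Wt t s) : Set (ℕ × ℕ)) (Wt t s).card)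
    (hd : δ * ((δ - 1) * (δ - 2)) ≤ 2 * d) (hB : δ * d ≤ B)
    (hK : ∀ k : ℕ, 0 < k → k ≤ B → (k : K) ≠ 0) (hσ : Reach δ σ)
    (h1 : (2 * (d : ℝ) + 3 - δ) / 2 * (Real.sqrt σ * max 1 (t / σ)) < s) :
    RkS 𝓘 (Tset d) (Tfin d).card := by
  have hml := Nat.mod_lt d (show 0 < δ by omega)
  have hdm := Nat.div_add_mod d δ
  obtain ⟨u, t', j, ht', hj, hz, hV, himp⟩ := initialV (n := (Tfin d).card) h𝓘 hδ
    (show d + 1 = δ * (d / δ) + (d % δ + 1) by omega) hml (YY_le hδ hd) hB hK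
  refine himp ?_
  have hδ0 : 0 < δ := by omega
  have hδ' : (0 : ℝ) < δ := by exact_mod_cast hδ0
  have hcard : (Lfin (δ * δ) u t' j).card = (Tfin d).card :=
    card_of_sz hj (hz.trans (card_Tfin d).symm)
  rw [← coe_Lfin ht' hj, ← hcard]
  have hc := cc_two δ
  obtain ⟨V, hVd⟩ : ∃ V : ℝ, V = ((δ * δ * u + t' : ℕ) : ℝ) := ⟨_, rfl⟩
  have hVe : 2 * V = δ * (2 * (d : ℝ) + 3 - δ) := by
    have h3 : ((δ * δ * u + t' + cc δ : ℕ) : ℝ) = ((δ * (d + 1) : ℕ) : ℝ) := by rw [hV]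
    have h4 : ((2 * cc δ + δ : ℕ) : ℝ) = ((δ * δ : ℕ) : ℝ) := by rw [hc]
    rw [hVd]
    push_cast at h3 h4 ⊢
    linarith
  have hLV : ∀ p ∈ Lfin (δ * δ) u t' j, (p.1 : ℝ) + (δ : ℝ) ^ 2 * (p.2 : ℝ) ≤ V := by
    rintro ⟨i, l⟩ hp
    have h3 : ((i, l) : ℕ × ℕ) ∈ (↑(Lfin (δ * δ) u t' j) : Set (ℕ × ℕ)) := hp
    rw [coe_Lfin ht' hj, mem_Lset] at h3
    have h4 : i + δ * δ * l ≤ δ * δ * u + t' := by omega
    have h5 : ((i + δ * δ * l : ℕ) : ℝ) ≤ ((δ * δ * u + t' : ℕ) : ℝ) := by exact_mod_cast h4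
    rw [← hVd] at h5
    push_cast at h5
    simp only
    nlinarith
  have hLB : ∀ p ∈ Lfin (δ * δ) u t' j, p.2 ≤ B := by
    rintro ⟨i, l⟩ hp
    have h3 : ((i, l) : ℕ × ℕ) ∈ (↑(Lfin (δ * δ) u t' j) : Set (ℕ × ℕ)) := hp
    rw [coe_Lfin ht' hj, mem_Lset] at h3
    have h4 : δ * δ * l ≤ δ * δ * u + t' := by omega
    have h5 : δ * (δ * l) ≤ δ * (d + 1) := by
      rw [← Nat.mul_assoc]
      omega
    have h6 : δ * l ≤ d + 1 := Nat.le_of_mul_le_mul_left h5 hδ0
    have h7 : 2 * l ≤ δ * l := Nat.mul_le_mul_right _ hδ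
    have h8 : 2 * d ≤ δ * d := Nat.mul_le_mul_right _ hδ
    simp only
    omega
  obtain ⟨M', h3, h4, h5, h6⟩ := reach_chain h𝓘 hδ0 hK hLB hLV hσ
  refine h6 (hbase.subset ?_)
  have hσ0 : 0 < σ := hσ.pos hδ0
  have hs0 : 0 < Real.sqrt σ := Real.sqrt_pos.2 hσ0
  have hss : Real.sqrt σ * Real.sqrt σ = σ := Real.mul_self_sqrt hσ0.le
  rintro ⟨i, l⟩ hp
  have h7 := h5 _ hp
  simp only at h7
  have h8 : (i : ℝ) + σ * l ≤ (2 * (d : ℝ) + 3 - δ) / 2 * Real.sqrt σ := by
    have h9 : (δ / Real.sqrt σ * (i : ℝ) + δ * Real.sqrt σ * (l : ℝ)) * (Real.sqrt σ / δ) =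
        i + σ * l := by
      field_simp
      rw [pow_two, hss]
      ring
    rw [← h9]
    have h10 : V = δ * ((2 * (d : ℝ) + 3 - δ) / 2) := by linarith
    have h11 : (2 * (d : ℝ) + 3 - δ) / 2 * Real.sqrt σ = V * (Real.sqrt σ / δ) := by
      rw [h10]
      field_simp
    rw [h11]
    exact mul_le_mul_of_nonneg_right h7 (by positivity)
  have hi0 : (0 : ℝ) ≤ i := Nat.cast_nonneg i
  have hl0 : (0 : ℝ) ≤ l := Nat.cast_nonneg l
  rw [mem_Wt ht]
  have hm1 : 1 ≤ max 1 (t / σ) := le_max_left _ _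
  have hm2 : t ≤ max 1 (t / σ) * σ := by
    have := le_max_right 1 (t / σ)
    rwa [div_le_iff₀ hσ0] at this
  calc (i : ℝ) + t * l ≤ max 1 (t / σ) * (i + σ * l) := by nlinarith
    _ ≤ max 1 (t / σ) * ((2 * (d : ℝ) + 3 - δ) / 2 * Real.sqrt σ) :=
      mul_le_mul_of_nonneg_left h8 (by linarith)
    _ = (2 * (d : ℝ) + 3 - δ) / 2 * (Real.sqrt σ * max 1 (t / σ)) := by ring
    _ < s := h1

theorem zip_sum : ∀ (L : List ℕ) (f : Fin L.length → ℕ),
    (List.zipWith (fun x y => x * y) L (List.ofFn f)).sum = ∑ j, L.get j * f j := by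
  intro L
  induction L with
  | nil => intro f; simp
  | cons a L ih =>
    intro f
    have h1 : List.ofFn f = f 0 :: List.ofFn (fun i : Fin L.length => f i.succ) :=
      List.ofFn_succ (n := L.length) (f := f)
    rw [h1, List.zipWith_cons_cons, List.sum_cons, ih]
    exact (Fin.sum_univ_succ (n := L.length) (fun j : Fin (L.length + 1) =>
      (a :: L).get j * f j)).symm

/-- **The inequality for curves with arbitrary multiplicities.** -/
theorem main_gen [CharZero K] {n : ℕ} {P : Fin n → Fin 2 → K}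
    (hP : ∀ (d : ℕ) (w : Fin n → ℕ), (∃ P0 : Fin n → Fin 2 → K, NoForm (ptJ P0 w) d) →
      NoForm (ptJ P w) d)
    {A B δ : ℕ} {σ : ℝ} (hA : 0 < A) (hB : 0 < B) (hδ : 2 ≤ δ) (hσ : Reach δ σ)
    {L : List ℕ} (hL : Mult A B L) {g : Fin L.length → Fin n} (hg : Function.Injective g)
    {F : MvPolynomial (Fin 3) K} {e : ℕ} (he : 0 < e)
    (hF : F ∈ MvPolynomial.homogeneousSubmodule (Fin 3) K e) (hF0 : F ≠ 0) {m : Fin n → ℕ}
    (hm : deh K F ∈ ptJ P m) :
    ((∑ j, L.get j * m (g j) : ℕ) : ℝ) ≤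
        e * (B * (Real.sqrt σ * max 1 (((A : ℝ) / B) / σ))) ∧
      (4 ≤ δ → ((∑ j, L.get j * m (g j) : ℕ) : ℝ) <
        e * (B * (Real.sqrt σ * max 1 (((A : ℝ) / B) / σ)))) := by
  classical
  have hinf : Infinite K := inferInstance
  obtain ⟨S, hS⟩ : ∃ S, S = ∑ j, L.get j * m (g j) := ⟨_, rfl⟩
  obtain ⟨β, hβ⟩ : ∃ β, β = Real.sqrt σ * max 1 (((A : ℝ) / B) / σ) := ⟨_, rfl⟩
  rw [← hS, ← hβ]
  have hA' : (0 : ℝ) < A := by exact_mod_cast hA
  have hB' : (0 : ℝ) < B := by exact_mod_cast hB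
  have he' : (1 : ℝ) ≤ e := by exact_mod_cast he
  have ht : (0 : ℝ) < (A : ℝ) / B := by positivity
  have hσ0 : 0 < σ := hσ.pos (by omega)
  have hβ0 : 0 < β := by
    rw [hβ]
    have := Real.sqrt_pos.2 hσ0
    have : (0 : ℝ) < max 1 (((A : ℝ) / B) / σ) := lt_of_lt_of_le one_pos (le_max_left _ _)
    positivity
  -- emptiness in degree `c e`
  have key : ∀ c : ℕ, 0 < c → δ * ((δ - 1) * (δ - 2)) ≤ c →
      ¬ ((2 * ((c * e : ℕ) : ℝ) + 3 - δ) / 2 * β < (c * S : ℕ) / B) := by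
    intro c hc hcδ hlt
    obtain ⟨W, hW⟩ : ∃ W : List ℕ, W = List.ofFn (fun j : Fin L.length => c * m (g j)) :=
      ⟨_, rfl⟩
    have hWl : W.length = L.length := by rw [hW, List.length_ofFn]
    have hzip : (List.zipWith (fun x y => x * y) L W).sum = c * S := by
      rw [hW, zip_sum, hS, Finset.mul_sum]
      exact Finset.sum_congr rfl fun j _ => by ring
    obtain ⟨J, hJ, hI⟩ := hL.indepW (K := K) W hWl (p1 := 1) (q1 := 0) (r1 := 0) (p2 := 0)
      (q2 := 1) (r2 := 0) (by norm_num) (M := Wt ((A : ℝ) / B) ((c * S : ℕ) / B))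
      (fun u _ => by unfold aff; positivity) (fun u _ => by unfold aff; positivity)
      (fun u hu => by
        obtain ⟨i, l⟩ := u
        rw [mem_Wt ht] at hu
        rw [hzip]
        unfold aff
        simp only
        have h2 : (i : ℝ) * B + l * A < ((c * S : ℕ) : ℝ) := by
          have h3 := mul_lt_mul_of_pos_right hu hB'
          have h4 : ((i : ℝ) + (A : ℝ) / B * l) * B = i * B + l * A := by
            field_simp
          have h5 : ((c * S : ℕ) : ℝ) / B * B = ((c * S : ℕ) : ℝ) := by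
            field_simp
          rw [h4, h5] at h3
          exact h3
        have h5 : i * B + l * A < c * S := by
          exact_mod_cast h2
        have h6 : ((i * B + l * A : ℕ) : ℤ) < ((c * S : ℕ) : ℤ) := by exact_mod_cast h5
        push_cast at h6 ⊢
        linarith)
    obtain ⟨J', hJ', hR'⟩ := rank_genT (K := K) (PtI.stable W) (t := (A : ℝ) / B) (σ := σ)
      (s := (c * S : ℕ) / B) (d := c * e) (B := δ * (c * e)) ht hδ ⟨J, hJ, hI.rk⟩
      (by
        have : c * 1 ≤ c * e := Nat.mul_le_mul_left c he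
        omega) le_rfl
      (fun j hj _ => by exact_mod_cast hj.ne') hσ (by rw [← hβ]; exact hlt)
    have hN := NoForm.of_rk hR'
    obtain ⟨P0, hP0⟩ := hJ'.points (fun i => c * m i) (fun i => g (Fin.cast hWl i))
      (fun i j hij => by
        have := hg hij
        exact Fin.cast_injective _ this) (fun i => by
        subst hW
        simp
        exact le_rfl)
    have hE := hP (c * e) (fun i => c * m i) ⟨P0, hN.anti hP0⟩
    have hF1 : F ^ c ∈ MvPolynomial.homogeneousSubmodule (Fin 3) K (c * e) := by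
      rw [MvPolynomial.mem_homogeneousSubmodule] at hF ⊢
      have := hF.pow c
      rwa [mul_comm] at this
    refine hF0 (eq_zero_of_pow_eq_zero (hE _ hF1 ?_))
    rw [map_pow]
    unfold ptJ vIdeal at hm ⊢
    rw [Ideal.mem_iInf] at hm ⊢
    intro i
    have h2 := hm i
    unfold cIdeal at h2 ⊢
    exact ideal_pow_mem h2 c
  obtain ⟨c0, hc0⟩ : ∃ c0, c0 = δ * ((δ - 1) * (δ - 2)) + 1 := ⟨_, rfl⟩
  refine ⟨?_, fun hδ4 => ?_⟩
  · by_contra hcon
    push Not at hcon
    have h1 : e * β < S / B := by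
      rw [lt_div_iff₀ hB']
      linarith
    obtain ⟨c, hc⟩ := exists_nat_gt (β / (S / B - e * β))
    have h2 : 0 < (S : ℝ) / B - e * β := by linarith
    rw [div_lt_iff₀ h2] at hc
    refine key (c + c0) (by omega) (by omega) ?_
    have hδR : (2 : ℝ) ≤ δ := by exact_mod_cast hδ
    have hc0' : (0 : ℝ) ≤ c0 := Nat.cast_nonneg c0
    push_cast
    have h3 : (2 * (((c : ℝ) + c0) * e) + 3 - δ) / 2 * β ≤ (c + c0) * (e * β) + β / 2 := by
      nlinarith
    have h4 : ((c : ℝ) + c0) * S / B = (c + c0) * (e * β) + c * (S / B - e * β) +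
        c0 * (S / B - e * β) := by
      field_simp
      ring
    rw [h4]
    have h5 : 0 ≤ c0 * ((S : ℝ) / B - e * β) := by positivity
    linarith
  · by_contra hcon
    push Not at hcon
    have h1 : e * β ≤ S / B := by
      rw [le_div_iff₀ hB']
      linarith
    refine key c0 (by omega) (by omega) ?_
    have hδR : (4 : ℝ) ≤ δ := by exact_mod_cast hδ4
    have hc0' : (0 : ℝ) ≤ c0 := Nat.cast_nonneg c0
    push_cast
    have h3 : (2 * ((c0 : ℝ) * e) + 3 - δ) / 2 * β < c0 * (e * β) := by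
      nlinarith
    have h4 : (c0 : ℝ) * S / B = c0 * (S / B) := by ring
    rw [h4]
    exact lt_of_lt_of_le h3 (mul_le_mul_of_nonneg_left h1 hc0')

end Pool.Agent.H350R3.GR
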