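import Mathlib
import Pool.Agent.H350R3.GR.General
import Pool.Agent.H350R3.NB.Nf

set_option autoImplicit false

/-!
# Passing between the two languages for points with multiplicities
-/

namespace Pool.Agent.H350R3.GR

open Polynomial Pool.Agent.H932R2 Pool.Agent.H932R3 Pool.Agent.H350R3.QM

variable {K : Type} [Field K]

theorem it2_C (a : K) : it2 K (MvPolynomial.C a) = C (C a) := (it2 K).commutes a

theorem it2_X0 : it2 K (MvPolynomial.X 0) = C X := by simp [it2]

theorem it2_X1 : it2 K (MvPolynomial.X 1) = X := by simp [it2]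

theorem it2_shift (P : Fin 2 → K) (f : MvPolynomial (Fin 2) K) :
    it2 K (H932R5.shift (E := 1) P f) = sh (P 0) (C (P 1)) (it2 K f) := by
  have h : ((it2 K : MvPolynomial (Fin 2) K →+* K[X][X])).comp
      (H932R5.shift (E := 1) P : MvPolynomial (Fin 2) K →+* MvPolynomial (Fin 2) K) =
      (sh (P 0) (C (P 1))).comp (it2 K : MvPolynomial (Fin 2) K →+* K[X][X]) := by
    refine MvPolynomial.ringHom_ext (fun c => ?_) fun j => ?_
    · simp only [RingHom.comp_apply, RingHom.coe_coe, H932R5.shift_C, it2_C, sh_C, C_comp]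
      exact it2_C c
    · fin_cases j
      · show it2 K (H932R5.shift (E := 1) P (MvPolynomial.X 0)) =
          sh (P 0) (C (P 1)) (it2 K (MvPolynomial.X 0))
        rw [H932R5.shift_X, map_add, it2_X0, it2_C, sh_C, X_comp, C_add]
      · show it2 K (H932R5.shift (E := 1) P (MvPolynomial.X 1)) =
          sh (P 0) (C (P 1)) (it2 K (MvPolynomial.X 1))
        rw [H932R5.shift_X, map_add, it2_X1, it2_C, sh_X, C_comp]
  exact congrArg (fun φ : MvPolynomial (Fin 2) K →+* K[X][X] => φ f) h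

theorem pt_iff {P : Fin 2 → K} {m : ℕ} {f : MvPolynomial (Fin 2) K} :
    f ∈ H932R5.pt (E := 1) P ^ m ↔
      it2 K f ∈ cIdeal (fun _ : Fin 1 => P 0) (C (P 1)) m := by
  rw [H932R5.mem_pt_pow_iff, mem_cIdeal_iff]
  constructor
  · intro h l hl i hi
    rw [← it2_shift, coeff_it2]
    refine h _ ?_
    rw [Finsupp.degree_eq_sum, Fin.sum_univ_two]
    simp
    omega
  · intro h s hs
    rw [Finsupp.degree_eq_sum, Fin.sum_univ_two] at hs
    have h1 := h (s 1) (by omega) (s 0) (by omega)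
    rw [← it2_shift, coeff_it2] at h1
    have h2 : Finsupp.single 0 (s 0) + Finsupp.single 1 (s 1) = s := by
      ext j
      fin_cases j
      · simp
      · simp
    rwa [h2] at h1

theorem mspan_coeff {M : Set (ℕ × ℕ)} {f : K[X][X]} (hf : f ∈ mspan K M) {i l : ℕ}
    (h : (f.coeff l).coeff i ≠ 0) : (i, l) ∈ M := by
  classical
  by_contra hcon
  apply h
  unfold mspan at hf
  refine Submodule.span_induction ?_ ?_ ?_ ?_ hf
  · rintro _ ⟨p, hp, rfl⟩
    rw [coeff_mon, if_neg]
    intro h5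
    apply hcon
    rw [← h5]
    exact hp
  · simp
  · intro a b _ _ ha hb
    rw [coeff_add, coeff_add, ha, hb, add_zero]
  · intro a b _ hb
    rw [coeff_smul, coeff_smul, hb, smul_zero]

theorem emp_of {n d : ℕ} {w : Fin n → ℕ} {x : Fin n → Fin 2 → K} (h : NoForm (ptJ x w) d) :
    NB.Emp w x d := by
  intro f hf hfd
  have h1 : it2 K f ∈ mspan K (Tset d) := by
    rw [f.as_sum, map_sum]
    refine Submodule.sum_mem _ fun s hs => ?_
    have h2 := hfd s (MvPolynomial.mem_support_iff.1 hs)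
    rw [Finsupp.degree_eq_sum, Fin.sum_univ_two] at h2
    have h3 : it2 K (MvPolynomial.monomial s (MvPolynomial.coeff s f)) =
        MvPolynomial.coeff s f • mon K (s 0, s 1) := by
      rw [it2, MvPolynomial.aeval_monomial, Finsupp.prod_fintype _ _ (fun i => by simp),
        Fin.prod_univ_two, Algebra.smul_def, mon]
      simp
    rw [h3]
    refine Submodule.smul_mem _ _ (Submodule.subset_span ⟨_, ?_, rfl⟩)
    rw [mem_Tset]
    exact h2
  obtain ⟨F, hF, hF'⟩ := exists_form h1
  have h2 := h F hF (by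
    rw [hF']
    unfold ptJ vIdeal
    rw [Ideal.mem_iInf]
    exact fun i => pt_iff.1 (hf i))
  rw [h2, map_zero] at hF'
  refine MvPolynomial.ext _ _ fun s => ?_
  have h3 := coeff_it2 f (s 0) (s 1)
  have h4 : Finsupp.single 0 (s 0) + Finsupp.single 1 (s 1) = s := by
    ext j
    fin_cases j
    · simp
    · simp
  rw [h4, ← hF'] at h3
  rw [← h3]
  simp

theorem noForm_of_emp {n d : ℕ} {w : Fin n → ℕ} {x : Fin n → Fin 2 → K}
    (h : NB.Emp w x d) : NoForm (ptJ x w) d := by
  intro F hF hF'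
  obtain ⟨f, hf⟩ : ∃ f : MvPolynomial (Fin 2) K, f = MvPolynomial.aeval
      ![(MvPolynomial.X 0 : MvPolynomial (Fin 2) K), MvPolynomial.X 1, 1] F := ⟨_, rfl⟩
  have h1 : it2 K f = deh K F := by
    have h2 : ((it2 K).comp (MvPolynomial.aeval
        ![(MvPolynomial.X 0 : MvPolynomial (Fin 2) K), MvPolynomial.X 1, 1])) = deh K := by
      refine MvPolynomial.algHom_ext fun j => ?_
      fin_cases j
      · show it2 K (MvPolynomial.aeval _ (MvPolynomial.X 0)) = deh K (MvPolynomial.X 0)
        rw [MvPolynomial.aeval_X, deh_X0]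
        exact it2_X0
      · show it2 K (MvPolynomial.aeval _ (MvPolynomial.X 1)) = deh K (MvPolynomial.X 1)
        rw [MvPolynomial.aeval_X, deh_X1]
        exact it2_X1
      · show it2 K (MvPolynomial.aeval _ (MvPolynomial.X 2)) = deh K (MvPolynomial.X 2)
        rw [MvPolynomial.aeval_X, deh_X2]
        exact map_one _
    rw [hf]
    exact AlgHom.congr_fun h2 F
  have h2 : f = 0 := by
    refine h f (fun i => ?_) fun α hα => ?_
    · rw [pt_iff, h1]
      unfold ptJ vIdeal at hF'
      rw [Ideal.mem_iInf] at hF'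
      exact hF' i
    · have h3 := coeff_it2 f (α 0) (α 1)
      have h4 : Finsupp.single 0 (α 0) + Finsupp.single 1 (α 1) = α := by
        ext j
        fin_cases j
        · simp
        · simp
      rw [h4, h1] at h3
      have h5 := mspan_coeff (deh_mem_mspan (d := d) hF) (i := α 0) (l := α 1) (by
        rw [h3]
        exact hα)
      rw [mem_Tset] at h5
      rw [Finsupp.degree_eq_sum, Fin.sum_univ_two]
      exact h5
  refine deh_eq_zero (d := d) hF ?_
  rw [← h1, h2, map_zero]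

/-- Emptiness at some points, for arbitrary multiplicities. -/
theorem exists_empty [CharZero K] {A B δ : ℕ} {σ : ℝ} (hA : 0 < A) (hB : 0 < B) (hδ : 2 ≤ δ)
    (hσ : Reach δ σ) {L : List ℕ} (hL : Mult A B L) {m : Fin L.length → ℕ} {e : ℕ} (he : 0 < e)
    (h : e * (B * (Real.sqrt σ * max 1 (((A : ℝ) / B) / σ))) <
      ((∑ j, L.get j * m j : ℕ) : ℝ) ∨ 4 ≤ δ ∧
      e * (B * (Real.sqrt σ * max 1 (((A : ℝ) / B) / σ))) ≤
      ((∑ j, L.get j * m j : ℕ) : ℝ)) :
    ∃ P0 : Fin L.length → Fin 2 → K, NoForm (ptJ P0 m) e := by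
  classical
  have hinf : Infinite K := inferInstance
  obtain ⟨S, hS⟩ : ∃ S, S = ∑ j, L.get j * m j := ⟨_, rfl⟩
  obtain ⟨β, hβ⟩ : ∃ β, β = Real.sqrt σ * max 1 (((A : ℝ) / B) / σ) := ⟨_, rfl⟩
  rw [← hS, ← hβ] at h
  have hA' : (0 : ℝ) < A := by exact_mod_cast hA
  have hB' : (0 : ℝ) < B := by exact_mod_cast hB
  have he' : (1 : ℝ) ≤ e := by exact_mod_cast he
  have ht : (0 : ℝ) < (A : ℝ) / B := by positivity
  have hσ0 : 0 < σ := hσ.pos (by omega)
  have hβ0 : 0 < β := by
    rw [hβ]
    have := Real.sqrt_pos.2 hσ0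
    have : (0 : ℝ) < max 1 (((A : ℝ) / B) / σ) := lt_of_lt_of_le one_pos (le_max_left _ _)
    positivity
  have key : ∀ c : ℕ, 0 < c → δ * ((δ - 1) * (δ - 2)) ≤ c →
      ((2 * ((c * e : ℕ) : ℝ) + 3 - δ) / 2 * β < (c * S : ℕ) / B) →
      ∃ P0 : Fin L.length → Fin 2 → K, NoForm (ptJ P0 m) e := by
    intro c hc hcδ hlt
    obtain ⟨W, hW⟩ : ∃ W : List ℕ, W = List.ofFn (fun j : Fin L.length => c * m j) :=
      ⟨_, rfl⟩
    have hWl : W.length = L.length := by rw [hW, List.length_ofFn]
    have hzip : (List.zipWith (fun x y => x * y) L W).sum = c * S := by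
      rw [hW, zip_sum, hS, Finset.mul_sum]
      exact Finset.sum_congr rfl fun j _ => by ring
    obtain ⟨J, hJ, hI⟩ := hL.indepW (K := K) W hWl (p1 := 1) (q1 := 0) (r1 := 0) (p2 := 0)
      (q2 := 1) (r2 := 0) (by norm_num) (M := Wt ((A : ℝ) / B) ((c * S : ℕ) / B))
      (fun u _ => by unfold aff; positivity) (fun u _ => by unfold aff; positivity)
      (fun u hu => by
        obtain ⟨i, l⟩ := u
        rw [mem_Wt ht] at hu
        rw [hzip]
        unfold aff
        simp only
        have h2 : (i : ℝ) * B + l * A < ((c * S : ℕ) : ℝ) := by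
          have h3 := mul_lt_mul_of_pos_right hu hB'
          have h4 : ((i : ℝ) + (A : ℝ) / B * l) * B = i * B + l * A := by
            field_simp
          have h5 : ((c * S : ℕ) : ℝ) / B * B = ((c * S : ℕ) : ℝ) := by
            field_simp
          rw [h4, h5] at h3
          exact h3
        have h5 : i * B + l * A < c * S := by
          exact_mod_cast h2
        have h6 : ((i * B + l * A : ℕ) : ℤ) < ((c * S : ℕ) : ℤ) := by exact_mod_cast h5
        push_cast at h6 ⊢
        linarith)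
    obtain ⟨J', hJ', hR'⟩ := rank_genT (K := K) (PtI.stable W) (t := (A : ℝ) / B) (σ := σ)
      (s := (c * S : ℕ) / B) (d := c * e) (B := δ * (c * e)) ht hδ ⟨J, hJ, hI.rk⟩
      (by
        have : c * 1 ≤ c * e := Nat.mul_le_mul_left c he
        omega) le_rfl
      (fun j hj _ => by exact_mod_cast hj.ne') hσ (by rw [← hβ]; exact hlt)
    have hN := NoForm.of_rk hR'
    obtain ⟨P0, hP0⟩ := hJ'.points (fun i => c * m i) (fun i => Fin.cast hWl i)
      (fun i j hij => Fin.cast_injective _ hij) (fun i => by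
        subst hW
        simp
        exact le_rfl)
    refine ⟨P0, NoForm.of_pow (k := c) (fun f hf => ?_) (hN.anti hP0)⟩
    unfold ptJ vIdeal at hf ⊢
    rw [Ideal.mem_iInf] at hf ⊢
    intro i
    have h2 := hf i
    unfold cIdeal at h2 ⊢
    exact ideal_pow_mem h2 c
  obtain ⟨c0, hc0⟩ : ∃ c0, c0 = δ * ((δ - 1) * (δ - 2)) + 1 := ⟨_, rfl⟩
  rcases h with h | ⟨hδ4, h⟩
  swap
  · have h1 : e * β ≤ S / B := by
      rw [le_div_iff₀ hB']
      linarith
    refine key c0 (by omega) (by omega) ?_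
    have hδR : (4 : ℝ) ≤ δ := by exact_mod_cast hδ4
    have hc0' : (0 : ℝ) ≤ c0 := Nat.cast_nonneg c0
    push_cast
    have h3 : (2 * ((c0 : ℝ) * e) + 3 - δ) / 2 * β < c0 * (e * β) := by
      nlinarith
    have h4 : (c0 : ℝ) * S / B = c0 * (S / B) := by ring
    rw [h4]
    exact lt_of_lt_of_le h3 (mul_le_mul_of_nonneg_left h1 hc0')
  have h1 : e * β < S / B := by
    rw [lt_div_iff₀ hB']
    linarith
  obtain ⟨c, hc⟩ := exists_nat_gt (β / (S / B - e * β))
  have h2 : 0 < (S : ℝ) / B - e * β := by linarith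
  rw [div_lt_iff₀ h2] at hc
  refine key (c + c0) (by omega) (by omega) ?_
  have hδR : (2 : ℝ) ≤ δ := by exact_mod_cast hδ
  have hc0' : (0 : ℝ) ≤ c0 := Nat.cast_nonneg c0
  push_cast
  have h3 : (2 * (((c : ℝ) + c0) * e) + 3 - δ) / 2 * β ≤ (c + c0) * (e * β) + β / 2 := by
    nlinarith
  have h4 : ((c : ℝ) + c0) * S / B = (c + c0) * (e * β) + c * (S / B - e * β) +
      c0 * (S / B - e * β) := by
    field_simp
    ring
  rw [h4]
  have h5 : 0 ≤ c0 * ((S : ℝ) / B - e * β) := by positivity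
  linarith

end Pool.Agent.H350R3.GR
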