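import Mathlib
import Pool.Agent.H350R3.GR.Conv
import Pool.Agent.H350R3.NB.NfS

set_option autoImplicit false

/-!
# Replacing a point by a group of points
-/

namespace Pool.Agent.H350R3.GR

open Pool.Agent.H932R2 Pool.Agent.H932R3 Pool.Agent.H350R3.NB

variable {K : Type} [Field K]

theorem nf_tr {ι κ : Type} [Fintype ι] [Fintype κ] (e : ι ≃ κ) {t : ι → ℝ} {t' : κ → ℝ} {c : ℝ}
    (h : ∀ i, t' (e i) = t i) (hN : Nf K t c) : Nf K t' c := by
  have h1 := hN.equiv e
  have h2 : (fun j => t (e.symm j)) = t' := by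
    funext j
    rw [← h, e.apply_symm_apply]
  rwa [h2] at h1

/-- The equivalence between positions in the concatenation of two lists. -/
def appE (L₁ L₂ : List ℝ) : Fin L₁.length ⊕ Fin L₂.length ≃ Fin (L₁ ++ L₂).length :=
  finSumFinEquiv.trans (finCongr List.length_append.symm)

theorem appE_get (L₁ L₂ : List ℝ) (i : Fin L₁.length ⊕ Fin L₂.length) :
    (L₁ ++ L₂).get (appE L₁ L₂ i) = Sum.elim L₁.get L₂.get i := by
  rcases i with i | i
  · simp [appE]
  · simp [appE]

theorem nf_append {L₁ L₂ : List ℝ} {c : ℝ} (h : Nf K (Sum.elim L₁.get L₂.get) c) :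
    Nf K (L₁ ++ L₂).get c := nf_tr (appE L₁ L₂) (appE_get L₁ L₂) h

theorem nf_append' {L₁ L₂ : List ℝ} {c : ℝ} (h : Nf K (L₁ ++ L₂).get c) :
    Nf K (Sum.elim L₁.get L₂.get) c := by
  refine nf_tr (appE L₁ L₂).symm (fun i => ?_) h
  have := appE_get L₁ L₂ ((appE L₁ L₂).symm i)
  rw [Equiv.apply_symm_apply] at this
  exact this.symm

theorem nf_point [Infinite K] {ι : Type} [Fintype ι] (t : ι → ℝ) (ht : ∀ i, t i = 1)
    (hι : ∀ a b : ι, a = b) : Nf K t 1 := by
  classical
  intro w d hd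
  rcases isEmpty_or_nonempty ι with hE | ⟨⟨i⟩⟩
  · rw [Finset.univ_eq_empty, Finset.sum_empty, one_mul] at hd
    have : (0 : ℝ) ≤ d := Nat.cast_nonneg d
    linarith
  · have h1 : ∑ j, t j * (w j : ℝ) = w i := by
      rw [Finset.sum_eq_single i]
      · rw [ht, one_mul]
      · intro j _ hj
        exact absurd (hι j i) hj
      · intro h
        exact absurd (Finset.mem_univ i) h
    rw [h1, one_mul] at hd
    have h2 : d < w i := by exact_mod_cast hd
    exact ⟨fun _ _ => 0, fun f hf hfd => eq_zero_of_mult h2 (hf i) hfd⟩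

theorem nf_glue [Infinite K] {α β γ : Type} [Fintype α] [Fintype β] [Fintype γ]
    {a : α → ℝ} {l : β → ℝ} {b : γ → ℝ} {w c : ℝ} (ha : ∀ i, 0 ≤ a i) (hb : ∀ i, 0 ≤ b i)
    (hw : 0 < w) (h : Nf K (Sum.elim (Sum.elim a (fun _ : Unit => w)) b) c) (h' : Nf K l w) :
    Nf K (Sum.elim (Sum.elim a l) b) c := by
  classical
  let g : (α ⊕ β) ⊕ γ → (α ⊕ Unit) ⊕ γ := Sum.map (Sum.map id fun _ => ()) id
  let t : (α ⊕ β) ⊕ γ → ℝ := Sum.elim (Sum.elim (fun _ => 1) l) fun _ => 1
  let cc : (α ⊕ Unit) ⊕ γ → ℝ := Sum.elim (Sum.elim (fun _ => 1) fun _ => w) fun _ => 1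
  have hmain := Nf.comp (K := K) g (τ := Sum.elim (Sum.elim a (fun _ : Unit => w)) b) (c := c)
    (fun j => by
      rcases j with (j | j) | j
      · exact ha j
      · exact hw.le
      · exact hb j) h (t := t) (cc := cc)
    (fun j => by
      rcases j with (j | j) | j
      · exact one_pos
      · exact hw
      · exact one_pos)
    (fun j => by
      rcases j with (j | j) | j
      · refine nf_point _ ?_ ?_
        · rintro ⟨(i | i) | i, hi⟩
          · rfl
          · cases hi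
          · cases hi
        · rintro ⟨(i | i) | i, hi⟩ ⟨(i' | i') | i', hi'⟩ <;> cases hi <;> cases hi'
          rfl
      · refine nf_tr (ι := β) (t := l) (Equiv.ofBijective
          (fun i => ⟨Sum.inl (Sum.inr i), rfl⟩) ⟨?_, ?_⟩) (fun i => rfl) h'
        · intro i i' hii
          have h1 := congrArg Subtype.val hii
          exact Sum.inr_injective (Sum.inl_injective h1)
        · rintro ⟨(i | i) | i, hi⟩
          · cases hi
          · exact ⟨i, rfl⟩
          · cases hi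
      · refine nf_point _ ?_ ?_
        · rintro ⟨(i | i) | i, hi⟩
          · cases hi
          · cases hi
          · rfl
        · rintro ⟨(i | i) | i, hi⟩ ⟨(i' | i') | i', hi'⟩ <;> cases hi <;> cases hi'
          rfl)
  refine hmain.mono (fun i => ?_) le_rfl
  rcases i with (i | i) | i
  · show a i ≤ a i * (1 / 1)
    simp
  · show l i ≤ w * (l i / w)
    rw [mul_div_cancel₀ _ hw.ne']
  · show b i ≤ b i * (1 / 1)
    simp

theorem nf_list_glue [Infinite K] {L₁ L₂ L' : List ℝ} {w c : ℝ} (h₁ : ∀ t ∈ L₁, 0 < t)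
    (h₂ : ∀ t ∈ L₂, 0 < t) (hw : 0 < w) (h : Nf K (L₁ ++ [w] ++ L₂).get c)
    (h' : Nf K L'.get w) : Nf K (L₁ ++ L' ++ L₂).get c := by
  refine nf_append ?_
  have e1 : Nf K (Sum.elim (Sum.elim L₁.get (fun _ : Unit => w)) L₂.get) c := by
    have h3 := nf_append' h
    refine nf_tr (Equiv.sumCongr ((appE L₁ [w]).symm.trans
      (Equiv.sumCongr (Equiv.refl _) (Equiv.ofUnique (Fin 1) Unit))) (Equiv.refl _)) ?_ h3
    rintro (i | i)
    · obtain ⟨j, rfl⟩ := (appE L₁ [w]).surjective i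
      show Sum.elim L₁.get (fun _ : Unit => w) (Equiv.sumCongr (Equiv.refl _)
        (Equiv.ofUnique (Fin 1) Unit) ((appE L₁ [w]).symm (appE L₁ [w] j))) =
        (L₁ ++ [w]).get (appE L₁ [w] j)
      rw [Equiv.symm_apply_apply, appE_get]
      rcases j with j | j
      · rfl
      · show w = [w].get j
        simp
    · rfl
  have e2 := nf_glue (K := K) (fun i => (h₁ _ (List.get_mem L₁ i)).le)
    (fun i => (h₂ _ (List.get_mem L₂ i)).le) hw e1 h'
  refine nf_tr (Equiv.sumCongr (appE L₁ L') (Equiv.refl _)) ?_ e2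
  rintro (i | i)
  · exact appE_get L₁ L' i
  · rfl

theorem nf_list_scale {L : List ℝ} {a c : ℝ} (ha : 0 < a) (h : Nf K L.get c) :
    Nf K (L.map fun t => a * t).get (a * c) := by
  refine nf_tr (finCongr (List.length_map (fun t => a * t)).symm) (fun i => ?_) (h.scale ha.le)
  simp

/-- The inequality for the Euclidean weights. -/
theorem nf_euclid [CharZero K] {A B δ : ℕ} {σ c : ℝ} (hA : 0 < A) (hB : 0 < B) (hδ : 2 ≤ δ)
    (hσ : Reach δ σ) (hc : B * (Real.sqrt σ * max 1 (((A : ℝ) / B) / σ)) ≤ c) {L : List ℕ}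
    (hL : Mult A B L) : Nf K (L.map fun m : ℕ => (m : ℝ)).get c := by
  refine nf_tr (ι := Fin L.length) (t := fun j => (L.get j : ℝ))
    (finCongr (List.length_map (fun m : ℕ => (m : ℝ))).symm) (fun i => by simp) ?_
  intro w d hd
  rcases Nat.eq_zero_or_pos d with rfl | hd0
  · have h1 : ∃ i, 0 < w i := by
      by_contra hcon
      push Not at hcon
      have h2 : ∑ i, (L.get i : ℝ) * (w i : ℝ) = 0 := Finset.sum_eq_zero fun i _ => by
        have := hcon i
        have h3 : w i = 0 := by omega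
        rw [h3, Nat.cast_zero, mul_zero]
      rw [h2] at hd
      simp at hd
    obtain ⟨i, hi⟩ := h1
    exact ⟨fun _ _ => 0, fun f hf hfd => eq_zero_of_mult hi (hf i) hfd⟩
  · obtain ⟨P0, hP0⟩ := exists_empty (K := K) hA hB hδ hσ hL (m := w) hd0 (Or.inl (by
      push_cast
      have hd' : (0 : ℝ) ≤ d := Nat.cast_nonneg d
      nlinarith))
    exact ⟨P0, emp_of hP0⟩

theorem nfs_tr {ι κ : Type} [Fintype ι] [Fintype κ] (e : ι ≃ κ) {t : ι → ℝ} {t' : κ → ℝ} {c : ℝ}
    (h : ∀ i, t' (e i) = t i) (hN : NfS K t c) : NfS K t' c := by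
  have h1 := hN.equiv e
  have h2 : (fun j => t (e.symm j)) = t' := by
    funext j
    rw [← h, e.apply_symm_apply]
  rwa [h2] at h1

theorem nfs_append {L₁ L₂ : List ℝ} {c : ℝ} (h : NfS K (Sum.elim L₁.get L₂.get) c) :
    NfS K (L₁ ++ L₂).get c := nfs_tr (appE L₁ L₂) (appE_get L₁ L₂) h

theorem nfs_append' {L₁ L₂ : List ℝ} {c : ℝ} (h : NfS K (L₁ ++ L₂).get c) :
    NfS K (Sum.elim L₁.get L₂.get) c := by
  refine nfs_tr (appE L₁ L₂).symm (fun i => ?_) h
  have := appE_get L₁ L₂ ((appE L₁ L₂).symm i)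
  rw [Equiv.apply_symm_apply] at this
  exact this.symm

theorem nfs_glue [Infinite K] {α β γ : Type} [Fintype α] [Fintype β] [Fintype γ]
    {a : α → ℝ} {l : β → ℝ} {b : γ → ℝ} {w c : ℝ} (ha : ∀ i, 0 ≤ a i) (hb : ∀ i, 0 ≤ b i)
    (hw : 0 < w) (h : NfS K (Sum.elim (Sum.elim a (fun _ : Unit => w)) b) c) (h' : Nf K l w) :
    NfS K (Sum.elim (Sum.elim a l) b) c := by
  classical
  let g : (α ⊕ β) ⊕ γ → (α ⊕ Unit) ⊕ γ := Sum.map (Sum.map id fun _ => ()) id
  let t : (α ⊕ β) ⊕ γ → ℝ := Sum.elim (Sum.elim (fun _ => 1) l) fun _ => 1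
  let cc : (α ⊕ Unit) ⊕ γ → ℝ := Sum.elim (Sum.elim (fun _ => 1) fun _ => w) fun _ => 1
  have hmain := NfS.comp (K := K) g (τ := Sum.elim (Sum.elim a (fun _ : Unit => w)) b) (c := c)
    (fun j => by
      rcases j with (j | j) | j
      · exact ha j
      · exact hw.le
      · exact hb j) h (t := t) (cc := cc)
    (fun j => by
      rcases j with (j | j) | j
      · exact one_pos
      · exact hw
      · exact one_pos)
    (fun j => by
      rcases j with (j | j) | j
      · refine nf_point _ ?_ ?_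
        · rintro ⟨(i | i) | i, hi⟩
          · rfl
          · cases hi
          · cases hi
        · rintro ⟨(i | i) | i, hi⟩ ⟨(i' | i') | i', hi'⟩ <;> cases hi <;> cases hi'
          rfl
      · refine nf_tr (ι := β) (t := l) (Equiv.ofBijective
          (fun i => ⟨Sum.inl (Sum.inr i), rfl⟩) ⟨?_, ?_⟩) (fun i => rfl) h'
        · intro i i' hii
          have h1 := congrArg Subtype.val hii
          exact Sum.inr_injective (Sum.inl_injective h1)
        · rintro ⟨(i | i) | i, hi⟩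
          · cases hi
          · exact ⟨i, rfl⟩
          · cases hi
      · refine nf_point _ ?_ ?_
        · rintro ⟨(i | i) | i, hi⟩
          · cases hi
          · cases hi
          · rfl
        · rintro ⟨(i | i) | i, hi⟩ ⟨(i' | i') | i', hi'⟩ <;> cases hi <;> cases hi'
          rfl)
  refine hmain.mono (fun i => ?_)
  rcases i with (i | i) | i
  · show a i ≤ a i * (1 / 1)
    simp
  · show l i ≤ w * (l i / w)
    rw [mul_div_cancel₀ _ hw.ne']
  · show b i ≤ b i * (1 / 1)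
    simp

theorem nfs_list_glue [Infinite K] {L₁ L₂ L' : List ℝ} {w c : ℝ} (h₁ : ∀ t ∈ L₁, 0 < t)
    (h₂ : ∀ t ∈ L₂, 0 < t) (hw : 0 < w) (h : NfS K (L₁ ++ [w] ++ L₂).get c)
    (h' : Nf K L'.get w) : NfS K (L₁ ++ L' ++ L₂).get c := by
  refine nfs_append ?_
  have e1 : NfS K (Sum.elim (Sum.elim L₁.get (fun _ : Unit => w)) L₂.get) c := by
    have h3 := nfs_append' h
    refine nfs_tr (Equiv.sumCongr ((appE L₁ [w]).symm.trans
      (Equiv.sumCongr (Equiv.refl _) (Equiv.ofUnique (Fin 1) Unit))) (Equiv.refl _)) ?_ h3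
    rintro (i | i)
    · obtain ⟨j, rfl⟩ := (appE L₁ [w]).surjective i
      show Sum.elim L₁.get (fun _ : Unit => w) (Equiv.sumCongr (Equiv.refl _)
        (Equiv.ofUnique (Fin 1) Unit) ((appE L₁ [w]).symm (appE L₁ [w] j))) =
        (L₁ ++ [w]).get (appE L₁ [w] j)
      rw [Equiv.symm_apply_apply, appE_get]
      rcases j with j | j
      · rfl
      · show w = [w].get j
        simp
    · rfl
  have e2 := nfs_glue (K := K) (fun i => (h₁ _ (List.get_mem L₁ i)).le)
    (fun i => (h₂ _ (List.get_mem L₂ i)).le) hw e1 h'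
  refine nfs_tr (Equiv.sumCongr (appE L₁ L') (Equiv.refl _)) ?_ e2
  rintro (i | i)
  · exact appE_get L₁ L' i
  · rfl

theorem nfs_list_scale {L : List ℝ} {a c : ℝ} (ha : 0 < a) (h : NfS K L.get c) :
    NfS K (L.map fun t => a * t).get (a * c) := by
  refine nfs_tr (finCongr (List.length_map (fun t => a * t)).symm) (fun i => ?_) (h.scale ha)
  simp

/-- The strict inequality for the Euclidean weights. -/
theorem nfs_euclid [CharZero K] {A B δ : ℕ} {σ c : ℝ} (hA : 0 < A) (hB : 0 < B) (hδ : 4 ≤ δ)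
    (hσ : Reach δ σ) (hc : B * (Real.sqrt σ * max 1 (((A : ℝ) / B) / σ)) ≤ c) {L : List ℕ}
    (hL : Mult A B L) : NfS K (L.map fun m : ℕ => (m : ℝ)).get c := by
  refine nfs_tr (ι := Fin L.length) (t := fun j => (L.get j : ℝ))
    (finCongr (List.length_map (fun m : ℕ => (m : ℝ))).symm) (fun i => by simp) ?_
  intro w d hd0 hd
  obtain ⟨P0, hP0⟩ := exists_empty (K := K) hA hB (by omega) hσ hL (m := w) hd0
    (Or.inr ⟨hδ, by
      push_cast
      have hd' : (0 : ℝ) ≤ d := Nat.cast_nonneg d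
      nlinarith⟩)
  exact ⟨P0, emp_of hP0⟩

end Pool.Agent.H350R3.GR
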